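import Pool.Agent.TH382.QC.Main

/-!
# Quasi-periodic cocycles
-/

set_option autoImplicit false
set_option linter.unusedSectionVars false

open scoped Manifold ContDiff Topology ComplexConjugate
open Filter Set Metric

universe u

namespace Pool.Agent.TH382.QC

open Pool.Agent.H718R2.G Pool.Agent.W564.SC

variable {d n : ℕ} {N : Type u} [TopologicalSpace N] [ChartedSpace (V n) N]
  [IsManifold (𝓡 n) ∞ N] {r : ℕ∞} {ρ : SL2 → N → N} {R : V d → N → N}

theorem tor_fam (hR : IsTorusAct d n N R) (r : ℕ∞) (α : V d) :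
    ∃ H : V d → DiffM n N r, IsFam n N r H ∧ ∀ s y, H s y = R (α + s) y := by
  have hr : (r : WithTop ℕ∞) ≤ ∞ := by exact_mod_cast le_top
  have hj : ContMDiff ((𝓡 d).prod (𝓡 n)) (𝓡 n) r (fun q : V d × N => R q.1 q.2) :=
    hR.smooth.of_le hr
  have hsl : ∀ a : V d, ContMDiff (𝓡 n) (𝓡 n) r (R a) := by
    intro a
    have h1 : ContMDiff (𝓡 n) ((𝓡 d).prod (𝓡 n)) r (fun y : N => (a, y)) :=
      contMDiff_const.prodMk contMDiff_id
    exact ContMDiff.comp (g := fun q : V d × N => R q.1 q.2) (f := fun y : N => (a, y)) hj h1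
  have key : ∀ s : V d, ∃ H : DiffM n N r, ∀ y, H y = R (α + s) y := by
    intro s
    have i1 : ∀ y, R (-(α + s)) (R (α + s) y) = y := fun y => by
      rw [← hR.add, neg_add_cancel, hR.zero]
    have i2 : ∀ y, R (α + s) (R (-(α + s)) y) = y := fun y => by
      rw [← hR.add, add_neg_cancel, hR.zero]
    exact ⟨⟨⟨R (α + s), R (-(α + s)), i1, i2⟩, hsl _, hsl _⟩, fun y => rfl⟩
  choose H hH using key
  refine ⟨H, ?_, hH⟩
  have e : (fun q : V d × N => H q.1 q.2) = fun q : V d × N => R (α + q.1) q.2 := by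
    funext q
    exact hH q.1 q.2
  intro y
  rw [e]
  have h1 : ContMDiff ((𝓡 d).prod (𝓡 n)) ((𝓡 d).prod (𝓡 n)) r
      (fun q : V d × N => (α + q.1, q.2)) := by
    have h2 : ContMDiff (𝓡 d) (𝓡 d) r (fun a : V d => α + a) :=
      (contDiff_const.add contDiff_id).contMDiff
    exact (h2.comp contMDiff_fst).prodMk contMDiff_snd
  exact (ContMDiff.comp (g := fun q : V d × N => R q.1 q.2)
    (f := fun q : V d × N => (α + q.1, q.2)) hj h1).contMDiffAt

/-- rational approximations -/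
theorem rat_approx (α : V d) : ∃ a : ℕ → V d, Tendsto a atTop (𝓝 0) ∧
    ∀ k : ℕ, ∀ j, ∃ m : ℤ, ((k + 1 : ℕ) • (α + a k)) j = (m : ℝ) := by
  refine ⟨fun k => WithLp.toLp 2 (fun j => (round ((k + 1 : ℕ) * α j) : ℝ) / (k + 1 : ℕ) - α j),
    ?_, ?_⟩
  · have h1 : Tendsto (fun (k : ℕ) (j : Fin d) =>
        (round ((k + 1 : ℕ) * α j) : ℝ) / (k + 1 : ℕ) - α j) atTop (𝓝 0) := by
      rw [tendsto_pi_nhds]
      intro j
      rw [Pi.zero_apply, tendsto_zero_iff_norm_tendsto_zero]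
      refine squeeze_zero (fun _ => norm_nonneg _) (fun k => ?_)
        tendsto_one_div_add_atTop_nhds_zero_nat
      have hk : (0 : ℝ) < ((k + 1 : ℕ) : ℝ) := by positivity
      have h2 := abs_sub_round (((k + 1 : ℕ) : ℝ) * α j)
      have h3 : (round ((k + 1 : ℕ) * α j) : ℝ) / (k + 1 : ℕ) - α j =
          -((((k + 1 : ℕ) : ℝ) * α j) - round (((k + 1 : ℕ) : ℝ) * α j)) / ((k + 1 : ℕ) : ℝ) := by
        field_simp
        ring
      rw [h3, Real.norm_eq_abs, abs_div, abs_neg, abs_of_pos hk]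
      have h4 : (((k + 1 : ℕ) : ℝ)) = (k : ℝ) + 1 := by push_cast; ring
      rw [h4] at h2 ⊢
      gcongr
      linarith
    have h2 := ((PiLp.continuous_toLp 2 (fun _ : Fin d => ℝ)).tendsto 0).comp h1
    exact h2
  · intro k j
    refine ⟨round ((k + 1 : ℕ) * α j), ?_⟩
    have hk : ((k + 1 : ℕ) : ℝ) ≠ 0 := by positivity
    show ((k + 1 : ℕ) • (α + _)) j = _
    rw [PiLp.smul_apply, PiLp.add_apply]
    simp only [nsmul_eq_mul]
    rw [add_sub_cancel, mul_div_cancel₀ _ hk]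

theorem R_iter (hR : IsTorusAct d n N R) (a : V d) (k : ℕ) (y : N) :
    (R a)^[k] y = R (k • a) y := by
  induction k with
  | zero => rw [zero_smul, hR.zero]; rfl
  | succ k ih => rw [Function.iterate_succ_apply', ih, ← hR.add, succ_nsmul']

theorem torus [T2Space N] [CompactSpace N] (hρ : IsAct n N ρ) (hR : IsTorusAct d n N R)
    (hRρ : ∀ a, Commutes ρ (R a)) {A : N → SL2} (α : V d) (F₀ F : DiffM n N r)
    (hF₀ : ∀ y, F₀ y = R α y) (hext : IsExt n N r ρ A F₀ F) (z : N) :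
    UnifHyp n N r A F₀ z ∨ ClosableAt n N r F z := by
  refine main hρ F₀ F hext z ?_
  intro U hU hU0
  obtain ⟨H, hfam, hH⟩ := tor_fam hR r α
  have e : H 0 = F₀ := by
    ext y
    rw [hH, add_zero, hF₀]
  rw [← e] at hU0
  obtain ⟨a, ha, hint⟩ := rat_approx α
  obtain ⟨k, hk⟩ := ((Cv.fam Pool.Agent.W917.SC.comp hfam ha).mem hU hU0).exists
  refine ⟨H (a k), hk, fun g y => by rw [hH, hH]; exact hRρ _ g y, k + 1, by omega, ?_⟩
  have e2 : (H (a k) : N → N) = R (α + a k) := by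
    funext y
    rw [hH]
  rw [e2, R_iter hR]
  exact hR.int _ (hint k) z

end Pool.Agent.TH382.QC
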