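import Pool.Agent.TH382.QC.Top

/-!
# Sequences which converge in the strong topology
-/

set_option autoImplicit false
set_option linter.unusedSectionVars false

open scoped Manifold ContDiff Topology
open Filter Set Metric

universe u

namespace Pool.Agent.TH382.QC

open Pool.Agent.H718R2.G Pool.Agent.W564.SC

variable {n : ℕ} {N : Type u} [TopologicalSpace N] [ChartedSpace (V n) N]
  [IsManifold (𝓡 n) ∞ N] {r : ℕ∞}

/-- change of charts -/
theorem CvAt.change (hcomp : S_COMP) {k : ℕ} {G : ℕ → DiffM n N r} {G₀ : DiffM n N r}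
    {φ' ψ' : OpenPartialHomeomorph N (V n)} {x : ℕ → N} {x₀ : N}
    (h : CvAt k G G₀ φ' ψ' x x₀)
    (hφ' : φ' ∈ IsManifold.maximalAtlas (𝓡 n) ∞ N) (hψ' : ψ' ∈ IsManifold.maximalAtlas (𝓡 n) ∞ N)
    (hx₀' : x₀ ∈ φ'.source) (hw' : G₀ x₀ ∈ ψ'.source)
    {φ ψ : OpenPartialHomeomorph N (V n)}
    (hφ : φ ∈ IsManifold.maximalAtlas (𝓡 n) ∞ N) (hψ : ψ ∈ IsManifold.maximalAtlas (𝓡 n) ∞ N)
    (hx : Tendsto x atTop (𝓝 x₀)) (hx₀ : x₀ ∈ φ.source) (hw : G₀ x₀ ∈ ψ.source) :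
    CvAt k G G₀ φ ψ x x₀ := by
  obtain ⟨p1, j1⟩ := h
  refine ⟨p1, ?_⟩
  have hxφ : ∀ᶠ m in atTop, x m ∈ φ.source := hx.eventually (φ.open_source.mem_nhds hx₀)
  have hxφ' : ∀ᶠ m in atTop, x m ∈ φ'.source := hx.eventually (φ'.open_source.mem_nhds hx₀')
  have hGψ : ∀ᶠ m in atTop, G m (x m) ∈ ψ.source := p1.eventually (ψ.open_source.mem_nhds hw)
  have hGψ' : ∀ᶠ m in atTop, G m (x m) ∈ ψ'.source := p1.eventually (ψ'.open_source.mem_nhds hw')
  have e0 : (φ' ∘ φ.symm) (φ x₀) = φ' x₀ := by simp only [Function.comp, φ.left_inv hx₀]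
  have e0' : (ψ' ∘ G₀ ∘ φ'.symm) (φ' x₀) = ψ' (G₀ x₀) := by
    simp only [Function.comp, φ'.left_inv hx₀']
  -- first transition
  have t1 : JetConv k (fun _ => φ' ∘ φ.symm) (fun m => φ (x m)) (φ' ∘ φ.symm) (φ x₀) :=
    Pool.Agent.W683.SC.jet_const ((φ.continuousAt hx₀).tendsto.comp hx)
      ((trans_smooth hφ hφ' hx₀ hx₀').of_le (by exact_mod_cast le_top))
  have j1' : JetConv k (fun m => ψ' ∘ G m ∘ φ'.symm) (fun m => (φ' ∘ φ.symm) (φ (x m)))
      (ψ' ∘ G₀ ∘ φ'.symm) ((φ' ∘ φ.symm) (φ x₀)) := by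
    rw [e0]
    refine jet_congr j1 ?_ (Eventually.of_forall fun m => EventuallyEq.rfl) EventuallyEq.rfl
    filter_upwards [hxφ] with m hm
    simp only [Function.comp, φ.left_inv hm]
  have j2 := hcomp (V n) (V n) (V n) k _ _ _ _ _ _ t1 j1'
  have q2 : Tendsto (fun m => ψ' (G m (x m))) atTop (𝓝 (ψ' (G₀ x₀))) :=
    (ψ'.continuousAt hw').tendsto.comp p1
  have t2 : JetConv k (fun _ => ψ ∘ ψ'.symm)
      (fun m => ((ψ' ∘ G m ∘ φ'.symm) ∘ (φ' ∘ φ.symm)) (φ (x m)))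
      (ψ ∘ ψ'.symm) (((ψ' ∘ G₀ ∘ φ'.symm) ∘ (φ' ∘ φ.symm)) (φ x₀)) := by
    have e1 : ((ψ' ∘ G₀ ∘ φ'.symm) ∘ (φ' ∘ φ.symm)) (φ x₀) = ψ' (G₀ x₀) := by
      rw [Function.comp_apply, e0, e0']
    rw [e1]
    refine jet_congr (Pool.Agent.W683.SC.jet_const q2
      ((trans_smooth hψ' hψ hw' hw).of_le (by exact_mod_cast le_top))) ?_
      (Eventually.of_forall fun m => EventuallyEq.rfl) EventuallyEq.rfl
    filter_upwards [hxφ, hxφ'] with m h1 h2
    simp only [Function.comp, φ.left_inv h1, φ'.left_inv h2]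
  have j3 := hcomp (V n) (V n) (V n) k _ _ _ _ _ _ j2 t2
  have key : ∀ (G' : DiffM n N r) (x' : N), x' ∈ φ.source → x' ∈ φ'.source → G' x' ∈ ψ'.source →
      (ψ ∘ ψ'.symm) ∘ ((ψ' ∘ G' ∘ φ'.symm) ∘ (φ' ∘ φ.symm)) =ᶠ[𝓝 (φ x')] ψ ∘ G' ∘ φ.symm := by
    intro G' x' hx' hx'' hGx'
    have hc1 : ContinuousAt φ.symm (φ x') := φ.continuousAt_symm (φ.map_source hx')
    have hc2 : ∀ᶠ v in 𝓝 (φ x'), φ.symm v ∈ φ'.source := by
      refine hc1.eventually (φ'.open_source.mem_nhds ?_)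
      rw [φ.left_inv hx']
      exact hx''
    have hc3 : ∀ᶠ v in 𝓝 (φ x'), G' (φ.symm v) ∈ ψ'.source := by
      have hc : ContinuousAt (fun v => G' (φ.symm v)) (φ x') :=
        G'.continuous.continuousAt.comp hc1
      refine hc.eventually (ψ'.open_source.mem_nhds ?_)
      simp only [φ.left_inv hx']
      exact hGx'
    filter_upwards [hc2, hc3] with v h2 h3
    simp only [Function.comp, φ'.left_inv h2, ψ'.left_inv h3]
  refine jet_congr j3 (Eventually.of_forall fun m => rfl) ?_ (key G₀ x₀ hx₀ hx₀' hw')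
  filter_upwards [hxφ, hxφ', hGψ'] with m h1 h2 h3
  exact key (G m) (x m) h1 h2 h3

theorem Cv.exists_seq [T2Space N] [CompactSpace N] (hcomp : S_COMP) (G₀ : DiffM n N r)
    (p : DiffM n N r → Prop)
    (h : ∀ U : Set (DiffM n N r), IsOpen[strongTop n N r] U → G₀ ∈ U → ∃ G ∈ U, p G) :
    ∃ G : ℕ → DiffM n N r, (∀ m, p (G m)) ∧ Cv G G₀ := by
  classical
  have hex : ∀ x : N, ∃ K : Set N, IsCompact K ∧ x ∈ interior K ∧
      K ⊆ (chartAt (V n) x).source ∩ G₀ ⁻¹' (chartAt (V n) (G₀ x)).source := fun x =>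
    exists_compact_subset ((chartAt (V n) x).open_source.inter
      ((chartAt (V n) (G₀ x)).open_source.preimage G₀.continuous))
      ⟨mem_chart_source _ _, mem_chart_source _ _⟩
  choose K hK1 hK2 hK3 using hex
  obtain ⟨t, -, ht⟩ := isCompact_univ.elim_nhds_subcover (fun x => interior (K x))
    (fun x _ => isOpen_interior.mem_nhds (hK2 x))
  let c : Fin t.card → N := fun i => (t.equivFin.symm i : N)
  let D : ℕ → StrongData n N := fun m =>
    { ι := Fin t.card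
      φ := fun i => chartAt (V n) (c i)
      ψ := fun i => chartAt (V n) (G₀ (c i))
      K := fun i => K (c i)
      ε := fun _ => 1 / ((m : ℝ) + 1)
      φ_mem := fun i => IsManifold.chart_mem_maximalAtlas _
      ψ_mem := fun i => IsManifold.chart_mem_maximalAtlas _
      lf := locallyFinite_of_finite _
      compact := fun i => hK1 _
      sub := fun i x hx => (hK3 _ hx).1
      pos := fun _ => by positivity }
  let kk : ℕ → ℕ := fun m => (min (m : ℕ∞) r).toNat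
  have hkk : ∀ m, (kk m : ℕ∞) ≤ r := by
    intro m
    have h1 : (min (m : ℕ∞) r) ≠ ⊤ := ne_top_of_le_ne_top (ENat.coe_ne_top m) (min_le_left _ _)
    show ((min (m : ℕ∞) r).toNat : ℕ∞) ≤ r
    rw [ENat.coe_toNat h1]
    exact min_le_right _ _
  have hkk2 : ∀ (k m : ℕ), (k : ℕ∞) ≤ r → k ≤ m → k ≤ kk m := by
    intro k m hk hkm
    have h1 : (min (m : ℕ∞) r) ≠ ⊤ := ne_top_of_le_ne_top (ENat.coe_ne_top m) (min_le_left _ _)
    have h2 : (k : ℕ∞) ≤ min (m : ℕ∞) r := le_min (by exact_mod_cast hkm) hk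
    show k ≤ (min (m : ℕ∞) r).toNat
    have h3 : (k : ℕ∞) ≤ ((min (m : ℕ∞) r).toNat : ℕ∞) := by
      rw [ENat.coe_toNat h1]
      exact h2
    exact_mod_cast h3
  have hG₀ : ∀ m, ∀ i, ∀ x ∈ (D m).K i, G₀ x ∈ ((D m).ψ i).source := fun m i x hx => (hK3 _ hx).2
  have hsel : ∀ m, ∃ G ∈ strongNbhd (D m) (kk m) G₀, p G := by
    intro m
    apply h
    · exact TopologicalSpace.isOpen_generateFrom_of_mem ⟨D m, kk m, G₀, hkk m, hG₀ m, rfl⟩
    · intro i x hx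
      refine ⟨hG₀ m i x hx, fun j _ => ?_⟩
      rw [sub_self, norm_zero]
      exact (D m).pos i
  choose G hG hpG using hsel
  refine ⟨G, hpG, ?_⟩
  intro k hk φ ψ hφ hψ x x₀ hx hx₀ hw
  -- the chart of the cover
  obtain ⟨i, hi⟩ : ∃ i : Fin t.card, x₀ ∈ interior (K (c i)) := by
    have h1 := ht (mem_univ x₀)
    simp only [mem_iUnion] at h1
    obtain ⟨y, hy, hy2⟩ := h1
    refine ⟨t.equivFin ⟨y, hy⟩, ?_⟩
    show x₀ ∈ interior (K ((t.equivFin.symm (t.equivFin ⟨y, hy⟩) : t) : N))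
    rw [Equiv.symm_apply_apply]
    exact hy2
  set φ' := chartAt (V n) (c i) with hφ'
  set ψ' := chartAt (V n) (G₀ (c i)) with hψ'
  have mφ' : φ' ∈ IsManifold.maximalAtlas (𝓡 n) ∞ N := IsManifold.chart_mem_maximalAtlas _
  have mψ' : ψ' ∈ IsManifold.maximalAtlas (𝓡 n) ∞ N := IsManifold.chart_mem_maximalAtlas _
  have hx₀K := interior_subset hi
  have hx₀' : x₀ ∈ φ'.source := (hK3 _ hx₀K).1
  have hw' : G₀ x₀ ∈ ψ'.source := (hK3 _ hx₀K).2
  have hxK : ∀ᶠ m in atTop, x m ∈ K (c i) :=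
    (hx.eventually (isOpen_interior.mem_nhds hi)).mono fun m hm => interior_subset hm
  have hcl : ∀ j ≤ k, ∀ᶠ m : ℕ in atTop, ‖iteratedFDeriv ℝ j (ψ' ∘ G m ∘ φ'.symm) (φ' (x m)) -
      iteratedFDeriv ℝ j (ψ' ∘ G₀ ∘ φ'.symm) (φ' (x m))‖ < 1 / ((m : ℝ) + 1) := by
    intro j hj
    filter_upwards [hxK, eventually_ge_atTop k] with m h1 h2
    exact (hG m i (x m) h1).2 j (hj.trans (hkk2 k m hk h2))
  have hsrc : ∀ᶠ m in atTop, G m (x m) ∈ ψ'.source := by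
    filter_upwards [hxK] with m h1
    exact (hG m i (x m) h1).1
  obtain ⟨c1, c2⟩ := Cv.const G₀ k hk φ' ψ' mφ' mψ' x x₀ hx hx₀' hw'
  have h0 : Tendsto (fun m : ℕ => 1 / ((m : ℝ) + 1)) atTop (𝓝 0) :=
    tendsto_one_div_add_atTop_nhds_zero_nat
  have hconv : ∀ j ≤ k, Tendsto (fun m => iteratedFDeriv ℝ j (ψ' ∘ G m ∘ φ'.symm) (φ' (x m)))
      atTop (𝓝 (iteratedFDeriv ℝ j (ψ' ∘ G₀ ∘ φ'.symm) (φ' x₀))) := by
    intro j hj
    have h1 : Tendsto (fun m => iteratedFDeriv ℝ j (ψ' ∘ G m ∘ φ'.symm) (φ' (x m)) -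
        iteratedFDeriv ℝ j (ψ' ∘ G₀ ∘ φ'.symm) (φ' (x m))) atTop (𝓝 0) := by
      rw [tendsto_zero_iff_norm_tendsto_zero]
      exact squeeze_zero' (Eventually.of_forall fun m => norm_nonneg _)
        ((hcl j hj).mono fun m hm => hm.le) h0
    have h2 := h1.add (c2.conv j hj)
    rw [zero_add] at h2
    refine h2.congr fun m => ?_
    exact sub_add_cancel _ _
  have hxφ' : ∀ᶠ m in atTop, x m ∈ φ'.source := hx.eventually (φ'.open_source.mem_nhds hx₀')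
  have hpt : Tendsto (fun m => G m (x m)) atTop (𝓝 (G₀ x₀)) := by
    have h1 : Tendsto (fun m => ψ' (G m (x m)) - ψ' (G₀ (x m))) atTop (𝓝 0) := by
      rw [tendsto_zero_iff_norm_tendsto_zero]
      refine squeeze_zero' (Eventually.of_forall fun m => norm_nonneg _) ?_ h0
      filter_upwards [hxK, hxφ'] with m h1 h2
      have h3 := (hG m i (x m) h1).2 0 (Nat.zero_le _)
      have h4 : iteratedFDeriv ℝ 0 (ψ' ∘ G m ∘ φ'.symm) (φ' (x m)) -
          iteratedFDeriv ℝ 0 (ψ' ∘ G₀ ∘ φ'.symm) (φ' (x m)) =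
          iteratedFDeriv ℝ 0 ((ψ' ∘ G m ∘ φ'.symm) - (ψ' ∘ G₀ ∘ φ'.symm)) (φ' (x m)) := by
        ext v
        simp [iteratedFDeriv_zero_apply]
      change ‖iteratedFDeriv ℝ 0 (ψ' ∘ G m ∘ φ'.symm) (φ' (x m)) -
          iteratedFDeriv ℝ 0 (ψ' ∘ G₀ ∘ φ'.symm) (φ' (x m))‖ < _ at h3
      rw [h4, norm_iteratedFDeriv_zero] at h3
      simp only [Pi.sub_apply, Function.comp, φ'.left_inv h2] at h3
      exact h3.le
    have h2 : Tendsto (fun m => ψ' (G₀ (x m))) atTop (𝓝 (ψ' (G₀ x₀))) :=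
      (ψ'.continuousAt hw').tendsto.comp c1
    have h3 := h1.add h2
    rw [zero_add] at h3
    have h4 : Tendsto (fun m => ψ'.symm (ψ' (G m (x m)) - ψ' (G₀ (x m)) + ψ' (G₀ (x m)))) atTop
        (𝓝 (ψ'.symm (ψ' (G₀ x₀)))) :=
      (ψ'.continuousAt_symm (ψ'.map_source hw')).tendsto.comp h3
    rw [ψ'.left_inv hw'] at h4
    refine h4.congr' ?_
    filter_upwards [hsrc] with m hm
    rw [sub_add_cancel, ψ'.left_inv hm]
  have hjet : CvAt k G G₀ φ' ψ' x x₀ := by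
    refine ⟨hpt, c2.pt, ?_, c2.smooth₀, hconv⟩
    filter_upwards [hxφ', hsrc] with m h1 h2
    exact (rep_smooth (G m) mφ' mψ' h1 h2).of_le (by exact_mod_cast hk)
  exact hjet.change hcomp mφ' mψ' hx₀' hw' hφ hψ hx hx₀ hw

end Pool.Agent.TH382.QC
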