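import Pool.Agent.TH382.QC.Ell
import Pool.Agent.TH382.QC.Top2

/-!
# The closing lemma for `SL(2, ℝ)`-extensions which are not uniformly hyperbolic
-/

set_option autoImplicit false
set_option linter.unusedSectionVars false

open scoped Manifold ContDiff Topology ComplexConjugate
open Filter Set Metric

universe u

namespace Pool.Agent.TH382.QC

open Pool.Agent.H718R2.G Pool.Agent.W564.SC

theorem rot_mul (s t : ℝ) : rot s * rot t = rot (s + t) := by
  apply eq_of_act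
  intro z
  rw [act_mul, act_rot, act_rot, act_rot, ← mul_assoc, ← Complex.exp_add]
  push_cast
  rw [add_mul]

theorem rot_zero : rot 0 = 1 := by
  apply eq_of_act
  intro z
  rw [act_rot, act_one]
  simp

section Sum

theorem nm_le_sum (M : SL2) : nm M ≤ ∑ i, ∑ l, |M.1 i l| := by
  have h1 : ‖al M‖ ≤ |(M.1 0 0 + M.1 1 1) / 2| + |(M.1 1 0 - M.1 0 1) / 2| :=
    Complex.norm_le_abs_re_add_abs_im _
  have h2 : ‖be M‖ ≤ |(M.1 0 0 - M.1 1 1) / 2| + |(M.1 0 1 + M.1 1 0) / 2| :=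
    Complex.norm_le_abs_re_add_abs_im _
  rw [abs_div, abs_div, abs_two] at h1 h2
  have a1 := abs_add_le (M.1 0 0) (M.1 1 1)
  have a2 := abs_sub (M.1 1 0) (M.1 0 1)
  have a3 := abs_sub (M.1 0 0) (M.1 1 1)
  have a4 := abs_add_le (M.1 0 1) (M.1 1 0)
  rw [Fin.sum_univ_two, Fin.sum_univ_two, Fin.sum_univ_two]
  unfold nm
  linarith

theorem unifHypOn_of {N : Type u} {A : N → SL2} {f : N → N} {K : Set N} {c κ : ℝ} (hc : 0 < c)
    (hκ : 1 < κ) (h : ∀ y ∈ K, ∀ m, c * κ ^ m ≤ 4 * nm (coc A f m y) ^ 2) : UnifHypOn A f K := by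
  refine ⟨Real.sqrt c / 2, Real.sqrt κ, by positivity, ?_, fun y hy m => ?_⟩
  · rw [show (1 : ℝ) = Real.sqrt 1 by simp]
    exact Real.sqrt_lt_sqrt (by norm_num) hκ
  · refine le_trans ?_ (nm_le_sum _)
    have h0 : 0 ≤ nm (coc A f m y) := zero_le_one.trans (one_le_nm _)
    have h1 : (Real.sqrt c / 2 * Real.sqrt κ ^ m) ^ 2 ≤ nm (coc A f m y) ^ 2 := by
      have e1 : Real.sqrt c ^ 2 = c := Real.sq_sqrt hc.le
      have e2 : (Real.sqrt κ ^ m) ^ 2 = κ ^ m := by
        rw [← pow_mul, mul_comm, pow_mul, Real.sq_sqrt (by linarith)]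
      have e3 : (Real.sqrt c / 2 * Real.sqrt κ ^ m) ^ 2 = c * κ ^ m / 4 := by
        rw [mul_pow, div_pow, e1, e2]
        ring
      rw [e3]
      linarith [h y hy m]
    exact (pow_le_pow_iff_left₀ (by positivity) h0 two_ne_zero).1 h1

end Sum

theorem coc_eq {N : Type u} (A : N → SL2) (f : N → N) (z : N) (j m : ℕ) :
    coc A f m (f^[j] z) = Q (fun i => A (f^[i] z)) j m := by
  induction m with
  | zero => rfl
  | succ m ih =>
    show A (f^[m] (f^[j] z)) * coc A f m (f^[j] z) =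
      A (f^[j + m] z) * Q (fun i => A (f^[i] z)) j m
    rw [ih, ← Function.iterate_add_apply, add_comm m j]

theorem P_shift {B : ℕ → SL2} {q : ℕ} (hB : ∀ j, B (j + q) = B j) (s : ℝ) (j : ℕ) :
    P B s (j + q) = P B s j * P B s q := by
  induction j with
  | zero => rw [zero_add, P, one_mul]
  | succ j ih =>
    rw [show j + 1 + q = (j + q) + 1 by ring]
    show rot s * B (j + q) * P B s (j + q) = rot s * B j * P B s j * P B s q
    rw [ih, hB]
    simp only [mul_assoc]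

theorem P_pow {B : ℕ → SL2} {q : ℕ} (hB : ∀ j, B (j + q) = B j) (s : ℝ) (m : ℕ) :
    P B s (m * q) = P B s q ^ m := by
  induction m with
  | zero => rw [zero_mul, pow_zero, P]
  | succ m ih => rw [show (m + 1) * q = m * q + q by ring, P_shift hB, ih, pow_succ]

section Man

variable {n : ℕ} {N : Type u} [TopologicalSpace N] [ChartedSpace (V n) N]
  [IsManifold (𝓡 n) ∞ N] {r : ℕ∞} {ρ : SL2 → N → N}

theorem rot_slice (hρ : IsAct n N ρ) (r : ℕ∞) (s : ℝ) :
    ContMDiff (𝓡 n) (𝓡 n) r (ρ (rot s)) := by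
  have hr : (r : WithTop ℕ∞) ≤ ∞ := by exact_mod_cast le_top
  have h1 : ContMDiff (𝓡 n) (𝓘(ℝ, ℝ).prod (𝓡 n)) r (fun y : N => (s, y)) :=
    contMDiff_const.prodMk contMDiff_id
  have h2 : ContMDiff (𝓘(ℝ, ℝ).prod (𝓡 n)) (𝓡 n) r (fun q : ℝ × N => ρ (rot q.1) q.2) :=
    hρ.smooth.of_le hr
  exact ContMDiff.comp (g := fun q : ℝ × N => ρ (rot q.1) q.2) (f := fun y : N => (s, y)) h2 h1

/-- the rotations as diffeomorphisms -/
theorem rot_fam (hρ : IsAct n N ρ) (r : ℕ∞) : ∃ H : ℝ → DiffM n N r, IsFam n N r H ∧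
    ∀ s y, H s y = ρ (rot s) y := by
  have hr : (r : WithTop ℕ∞) ≤ ∞ := by exact_mod_cast le_top
  have key : ∀ s : ℝ, ∃ H : DiffM n N r, ∀ y, H y = ρ (rot s) y := by
    intro s
    have i1 : ∀ y, ρ (rot (-s)) (ρ (rot s) y) = y := fun y => by
      rw [← hρ.mul, rot_mul, neg_add_cancel, rot_zero, hρ.one]
    have i2 : ∀ y, ρ (rot s) (ρ (rot (-s)) y) = y := fun y => by
      rw [← hρ.mul, rot_mul, add_neg_cancel, rot_zero, hρ.one]
    exact ⟨⟨⟨ρ (rot s), ρ (rot (-s)), i1, i2⟩, rot_slice hρ r s, rot_slice hρ r (-s)⟩,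
      fun y => rfl⟩
  choose H hH using key
  refine ⟨H, ?_, hH⟩
  have e : (fun q : ℝ × N => H q.1 q.2) = fun q : ℝ × N => ρ (rot q.1) q.2 := by
    funext q
    exact hH q.1 q.2
  intro y
  rw [e]
  have h2 : ContMDiff (𝓘(ℝ, ℝ).prod (𝓡 n)) (𝓡 n) r (fun q : ℝ × N => ρ (rot q.1) q.2) :=
    hρ.smooth.of_le hr
  exact h2.contMDiffAt

theorem iter (hρ : IsAct n N ρ) {A : N → SL2} (hA : ∀ g y, A (ρ g y) = A y) {F₁ G : N → N}
    (hF₁ : ∀ g y, F₁ (ρ g y) = ρ g (F₁ y)) {s : ℝ} (hG : ∀ y, G y = ρ (rot s * A y) (F₁ y))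
    (z : N) (i : ℕ) : G^[i] z = ρ (P (fun j => A (F₁^[j] z)) s i) (F₁^[i] z) := by
  induction i with
  | zero => simp [P, hρ.one]
  | succ i ih =>
    rw [Function.iterate_succ_apply', ih, hG, hA, hF₁, ← hρ.mul, Function.iterate_succ_apply']
    rfl

/-- closing when the base orbit is periodic and the product is elliptic for some angle -/
theorem per_of_elliptic (hρ : IsAct n N ρ) {A : N → SL2} (hA : ∀ g y, A (ρ g y) = A y)
    {F₁ : N → N} (hF₁ : ∀ g y, F₁ (ρ g y) = ρ g (F₁ y)) {z : N} {q : ℕ} (hq : 1 ≤ q)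
    (hz : F₁^[q] z = z) {G : N → N} {s : ℝ} (hG : ∀ y, G y = ρ (rot s * A y) (F₁ y)) {m : ℕ}
    (hm : 1 ≤ m) (hP : P (fun j => A (F₁^[j] z)) s q ^ m = 1) : IsPer G z := by
  refine ⟨m * q, Nat.mul_pos hm hq, ?_⟩
  have hB : ∀ j, (fun j => A (F₁^[j] z)) (j + q) = (fun j => A (F₁^[j] z)) j := by
    intro j
    simp only [Function.iterate_add_apply, hz]
  rw [iter hρ hA hF₁ hG, P_pow hB, hP, hρ.one]
  have h1 : ∀ m : ℕ, F₁^[m * q] z = z := by
    intro m
    induction m with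
    | zero => rw [zero_mul]; rfl
    | succ m ih => rw [show (m + 1) * q = m * q + q by ring, Function.iterate_add_apply, hz, ih]
  exact h1 m

theorem iter_tendsto {F₁ : ℕ → DiffM n N r} {F₀ : DiffM n N r} (h : Cv F₁ F₀) {x : ℕ → N} {x₀ : N}
    (hx : Tendsto x atTop (𝓝 x₀)) (i : ℕ) :
    Tendsto (fun m => (F₁ m)^[i] (x m)) atTop (𝓝 (F₀^[i] x₀)) := by
  induction i with
  | zero => exact hx
  | succ i ih =>
    simp only [Function.iterate_succ_apply']
    exact (h 0 (by simp) _ _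
      (IsManifold.chart_mem_maximalAtlas (F₀^[i] x₀))
      (IsManifold.chart_mem_maximalAtlas (F₀ (F₀^[i] x₀))) _ _ ih
      (mem_chart_source _ _) (mem_chart_source _ _)).pt

theorem symm_tendsto [T2Space N] [CompactSpace N] {F₁ : ℕ → DiffM n N r} {F₀ : DiffM n N r}
    (h : Cv F₁ F₀) {x : ℕ → N} {x₀ : N} (hx : Tendsto x atTop (𝓝 x₀)) :
    Tendsto (fun m => (F₁ m).symm (x m)) atTop (𝓝 (F₀.symm x₀)) := by
  have : SecondCountableTopology N := ChartedSpace.secondCountable_of_sigmaCompact (V n) N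
  apply tendsto_of_subseq_tendsto
  intro ns hns
  obtain ⟨y, φ₁, hφ₁, hy⟩ := CompactSpace.tendsto_subseq
    (fun i => (F₁ (ns i)).symm (x (ns i)))
  obtain ⟨φ₂, hφ₂, hmono⟩ := strictMono_subseq_of_tendsto_atTop (hns.comp hφ₁.tendsto_atTop)
  refine ⟨φ₁ ∘ φ₂, ?_⟩
  have h1 : Tendsto (fun i => (F₁ (ns (φ₁ (φ₂ i)))).symm (x (ns (φ₁ (φ₂ i))))) atTop (𝓝 y) :=
    hy.comp hφ₂.tendsto_atTop
  have h2 := iter_tendsto (h.subseq hmono) h1 1
  have h3 : Tendsto (fun i => x (ns (φ₁ (φ₂ i)))) atTop (𝓝 x₀) :=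
    hx.comp hmono.tendsto_atTop
  have h4 : F₀ y = x₀ := by
    refine tendsto_nhds_unique h2 (h3.congr fun i => ?_)
    show _ = F₁ (ns (φ₁ (φ₂ i))) ((F₁ (ns (φ₁ (φ₂ i)))).symm (x (ns (φ₁ (φ₂ i)))))
    rw [(F₁ _).apply_symm_apply]
  rw [← h4, F₀.symm_apply_apply]
  exact h1

theorem symm_iter_tendsto [T2Space N] [CompactSpace N] {F₁ : ℕ → DiffM n N r} {F₀ : DiffM n N r}
    (h : Cv F₁ F₀) {x : ℕ → N} {x₀ : N} (hx : Tendsto x atTop (𝓝 x₀)) (i : ℕ) :
    Tendsto (fun m => (F₁ m).symm^[i] (x m)) atTop (𝓝 (F₀.symm^[i] x₀)) := by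
  induction i with
  | zero => exact hx
  | succ i ih =>
    simp only [Function.iterate_succ_apply']
    exact symm_tendsto h ih

theorem coc_tendsto {F₁ : ℕ → DiffM n N r} {F₀ : DiffM n N r} (h : Cv F₁ F₀) {A : N → SL2}
    (hal : Continuous (fun y => al (A y))) (hbe : Continuous (fun y => be (A y)))
    {x : ℕ → N} {x₀ : N} (hx : Tendsto x atTop (𝓝 x₀)) (l : ℕ) :
    Tendsto (fun m => al (coc A (F₁ m) l (x m))) atTop (𝓝 (al (coc A F₀ l x₀))) ∧
      Tendsto (fun m => be (coc A (F₁ m) l (x m))) atTop (𝓝 (be (coc A F₀ l x₀))) := by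
  induction l with
  | zero => exact ⟨tendsto_const_nhds, tendsto_const_nhds⟩
  | succ l ih =>
    obtain ⟨h1, h2⟩ := ih
    have c1 := (Complex.continuous_conj.tendsto _).comp h1
    have c2 := (Complex.continuous_conj.tendsto _).comp h2
    have ha := (hal.tendsto _).comp (iter_tendsto h hx l)
    have hb := (hbe.tendsto _).comp (iter_tendsto h hx l)
    simp only [coc, al_mul, be_mul]
    exact ⟨(ha.mul h1).add (hb.mul c2), (ha.mul h2).add (hb.mul c1)⟩

theorem inv_iter (F : DiffM n N r) (j : ℕ) (y : N) : F^[j] (F.symm^[j] y) = y := by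
  have h : Function.RightInverse F.symm F := fun y => F.apply_symm_apply y
  exact (h.iterate j) y

theorem iter_inv (F : DiffM n N r) (j : ℕ) (y : N) : F.symm^[j] (F^[j] y) = y := by
  have h : Function.LeftInverse F.symm F := fun y => F.symm_apply_apply y
  exact (h.iterate j) y

theorem main [T2Space N] [CompactSpace N] (hρ : IsAct n N ρ) {A : N → SL2}
    (F₀ F : DiffM n N r) (hext : IsExt n N r ρ A F₀ F) (z : N)
    (hz : EquivClosable n N r ρ F₀ z) : UnifHyp n N r A F₀ z ∨ ClosableAt n N r F z := by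
  obtain ⟨hAc, hA, hF₀, hF⟩ := hext
  unfold EquivClosable Commutes at hz
  unfold Commutes at hF₀
  have hcomp := Pool.Agent.W917.SC.comp
  rw [or_iff_not_imp_right]
  intro hcl
  unfold ClosableAt at hcl
  push Not at hcl
  obtain ⟨U, hU, hFU, hno⟩ := hcl
  obtain ⟨F₁, hF₁, hcv⟩ := Cv.exists_seq hcomp F₀
    (fun F₁ => (∀ g y, F₁ (ρ g y) = ρ g (F₁ y)) ∧ IsPer F₁ z) hz
  obtain ⟨H, hfam, hH⟩ := rot_fam hρ r
  -- the perturbed maps
  obtain ⟨G, hGdef⟩ : ∃ G : ℝ → ℕ → DiffM n N r,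
      ∀ s m, G s m = F.trans (F₀.symm.trans ((F₁ m).trans (H s))) := ⟨_, fun _ _ => rfl⟩
  have hG : ∀ s m y, G s m y = ρ (rot s * A y) (F₁ m y) := by
    intro s m y
    rw [hGdef]
    show H s (F₁ m (F₀.symm (F y))) = _
    have e1 : F₀.symm (F y) = ρ (A y) y := by
      rw [hF, ← hF₀]
      exact F₀.symm_apply_apply _
    rw [e1, (hF₁ m).1, hH, ← hρ.mul]
  have hnear : ∃ δ : ℝ, 0 < δ ∧ ∃ M : ℕ, ∀ m ≥ M, ∀ s : ℝ, |s| < δ → G s m ∈ U := by
    by_contra hcon
    push Not at hcon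
    have hpos : ∀ i : ℕ, (0 : ℝ) < 1 / ((i : ℝ) + 1) := fun i => by positivity
    choose m hm s hs hbad using fun i : ℕ => hcon (1 / ((i : ℝ) + 1)) (hpos i) i
    have hmt : Tendsto m atTop atTop := tendsto_atTop_mono hm tendsto_id
    obtain ⟨g, hg1, hg2⟩ := strictMono_subseq_of_tendsto_atTop hmt
    have hst : Tendsto s atTop (𝓝 0) := by
      rw [tendsto_zero_iff_norm_tendsto_zero]
      exact squeeze_zero (fun _ => norm_nonneg _) (fun i => (hs i).le)
        tendsto_one_div_add_atTop_nhds_zero_nat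
    have hst' : Tendsto (fun i => s (g i)) atTop (𝓝 0) := hst.comp hg1.tendsto_atTop
    have c1 := (hcv.subseq hg2).trans hcomp (Cv.fam hcomp hfam hst')
    have c2 := (Cv.const F₀.symm).trans hcomp c1
    have c3 := (Cv.const F).trans hcomp c2
    have e : F.trans (F₀.symm.trans (F₀.trans (H 0))) = F := by
      ext y
      show H 0 (F₀ (F₀.symm (F y))) = F y
      rw [F₀.apply_symm_apply, hH, rot_zero, hρ.one]
    rw [e] at c3
    obtain ⟨i, hi⟩ := (c3.mem hU hFU).exists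
    apply hbad (g i)
    rw [hGdef]
    exact hi
  obtain ⟨δ, hδ, M, hM⟩ := hnear
  obtain ⟨ε, hε0, hε1, hεδ⟩ : ∃ ε : ℝ, 0 < ε ∧ ε ≤ 1 ∧ ε + ε ≤ δ :=
    ⟨min (δ / 2) 1, by positivity, min_le_right _ _, by linarith [min_le_left (δ / 2) 1]⟩
  -- no elliptic products
  have hell : ∀ m ≥ M, ∀ q, 1 ≤ q → (F₁ m)^[q] z = z → ∀ s, |s| ≤ ε →
      1 ≤ |(al (P (fun j => A ((F₁ m)^[j] z)) s q)).re| := by
    intro m hm q hq hqz s hs
    by_contra hcon
    push Not at hcon
    obtain ⟨s', hs', k, hk, hP⟩ := elliptic_close _ hq hcon hε0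
    have hs'δ : |s'| < δ := by
      have := abs_add_le (s' - s) s
      rw [sub_add_cancel] at this
      linarith
    exact hno _ (hM m hm s' hs'δ)
      (per_of_elliptic hρ hA (hF₁ m).1 hq hqz (hG s' m) hk hP)
  -- bound
  have hal : Continuous (fun y => al (A y)) := by
    have : (fun y => al (A y)) = fun y =>
        ((((A y).1 0 0 + (A y).1 1 1) / 2 : ℝ) : ℂ) +
          (((A y).1 1 0 - (A y).1 0 1) / 2 : ℝ) * Complex.I := by
      funext y
      exact Complex.ext (by simp [al]) (by simp [al])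
    rw [this]
    have h00 := hAc 0 0
    have h01 := hAc 0 1
    have h10 := hAc 1 0
    have h11 := hAc 1 1
    fun_prop
  have hbe : Continuous (fun y => be (A y)) := by
    have : (fun y => be (A y)) = fun y =>
        ((((A y).1 0 0 - (A y).1 1 1) / 2 : ℝ) : ℂ) +
          (((A y).1 0 1 + (A y).1 1 0) / 2 : ℝ) * Complex.I := by
      funext y
      exact Complex.ext (by simp [be]) (by simp [be])
    rw [this]
    have h00 := hAc 0 0
    have h01 := hAc 0 1
    have h10 := hAc 1 0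
    have h11 := hAc 1 1
    fun_prop
  obtain ⟨K, hK⟩ : ∃ K : ℝ, ∀ y, nm (A y) ≤ K := by
    obtain ⟨K, hK⟩ := (isCompact_univ.image (hal.norm.add hbe.norm)).isBounded.exists_norm_le
    refine ⟨K, fun y => ?_⟩
    have := hK _ (mem_image_of_mem _ (mem_univ y))
    exact (le_abs_self _).trans this
  have hK1 : 1 ≤ K := (one_le_nm _).trans (hK z)
  have hsin : 0 < Real.sin ε :=
    Real.sin_pos_of_pos_of_lt_pi hε0 (by linarith [Real.pi_gt_three])
  -- growth for the approximations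
  have hgr : ∀ m ≥ M, ∀ j l, (Real.sin ε ^ 2 / K ^ 2) ^ 2 * (1 + 2 * Real.sin ε) ^ l ≤
      4 * nm (coc A (F₁ m) l ((F₁ m)^[j] z)) ^ 2 := by
    intro m hm j l
    obtain ⟨q, hq, hqz⟩ := (hF₁ m).2
    rw [coc_eq]
    refine growth hq ?_ hε0 (hell m hm q hq hqz) (fun j => hK _) j l
    intro j
    simp only [Function.iterate_add_apply, hqz]
  -- limits
  have hlim : ∀ (x : ℕ → N) (y : N), Tendsto x atTop (𝓝 y) →
      (∀ m, ∃ j, (F₁ m)^[j] z = x m) → ∀ l,
      (Real.sin ε ^ 2 / K ^ 2) ^ 2 * (1 + 2 * Real.sin ε) ^ l ≤ 4 * nm (coc A F₀ l y) ^ 2 := by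
    intro x y hx hxz l
    obtain ⟨t1, t2⟩ := coc_tendsto hcv hal hbe hx l
    have t3 : Tendsto (fun m => 4 * nm (coc A (F₁ m) l (x m)) ^ 2) atTop
        (𝓝 (4 * nm (coc A F₀ l y) ^ 2)) := ((t1.norm.add t2.norm).pow 2).const_mul 4
    refine ge_of_tendsto t3 ?_
    filter_upwards [eventually_ge_atTop M] with m hm
    obtain ⟨j, hj⟩ := hxz m
    rw [← hj]
    exact hgr m hm j l
  refine unifHypOn_of (c := (Real.sin ε ^ 2 / K ^ 2) ^ 2) (κ := 1 + 2 * Real.sin ε)
    (by positivity) (by linarith) fun y hy l => ?_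
  have hcl : IsClosed {y | (Real.sin ε ^ 2 / K ^ 2) ^ 2 * (1 + 2 * Real.sin ε) ^ l ≤
      4 * nm (coc A F₀ l y) ^ 2} := by
    have h1 : Continuous (fun y => al (coc A F₀ l y)) ∧ Continuous (fun y => be (coc A F₀ l y)) := by
      clear hy
      induction l with
      | zero =>
        exact ⟨(continuous_const : Continuous (fun _ : N => al 1)),
          (continuous_const : Continuous (fun _ : N => be 1))⟩
      | succ l ih =>
        obtain ⟨h1, h2⟩ := ih
        have c0 : Continuous (F₀^[l]) := F₀.continuous.iterate l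
        have c1 := Complex.continuous_conj.comp h1
        have c2 := Complex.continuous_conj.comp h2
        simp only [coc, al_mul, be_mul]
        exact ⟨((hal.comp c0).mul h1).add ((hbe.comp c0).mul c2),
          ((hal.comp c0).mul h2).add ((hbe.comp c0).mul c1)⟩
    exact isClosed_le continuous_const (continuous_const.mul ((h1.1.norm.add h1.2.norm).pow 2))
  refine closure_minimal ?_ hcl hy
  rintro y ⟨j, hj | hj⟩
  · refine hlim (fun m => (F₁ m)^[j] z) y ?_ (fun m => ⟨j, rfl⟩) l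
    rw [← hj]
    exact iter_tendsto hcv tendsto_const_nhds j
  · refine hlim (fun m => (F₁ m).symm^[j] z) y ?_ (fun m => ?_) l
    · have := symm_iter_tendsto hcv (tendsto_const_nhds (x := z)) j
      rwa [← hj, iter_inv, hj] at this
    · obtain ⟨q, hq, hqz⟩ := (hF₁ m).2
      have h1 : ∀ i : ℕ, (F₁ m)^[i * q] z = z := by
        intro i
        induction i with
        | zero => rw [zero_mul]; rfl
        | succ i ih =>
          rw [show (i + 1) * q = i * q + q by ring, Function.iterate_add_apply, hqz, ih]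
      refine ⟨j * q - j, ?_⟩
      have h2 : j + (j * q - j) = j * q := by
        have : j ≤ j * q := Nat.le_mul_of_pos_right j hq
        omega
      calc (F₁ m)^[j * q - j] z
          = (F₁ m).symm^[j] ((F₁ m)^[j] ((F₁ m)^[j * q - j] z)) := (iter_inv (F₁ m) j _).symm
        _ = (F₁ m).symm^[j] ((F₁ m)^[j * q] z) := by rw [← Function.iterate_add_apply, h2]
        _ = (F₁ m).symm^[j] z := by rw [h1]

end Man

end Pool.Agent.TH382.QC
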