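import Pool.Agent.TH382.QC.Defs

/-!
# The group `SL(2, ℝ)` acting on `ℂ = ℝ²`: `z ↦ α z + β conj z`
-/

set_option autoImplicit false

open Complex ComplexConjugate Matrix

namespace Pool.Agent.TH382.QC

noncomputable def al (M : SL2) : ℂ := ⟨(M.1 0 0 + M.1 1 1) / 2, (M.1 1 0 - M.1 0 1) / 2⟩

noncomputable def be (M : SL2) : ℂ := ⟨(M.1 0 0 - M.1 1 1) / 2, (M.1 0 1 + M.1 1 0) / 2⟩

/-- the linear action on `ℂ = ℝ²` -/
noncomputable def act (M : SL2) (z : ℂ) : ℂ := al M * z + be M * conj z

theorem det_eq (M : SL2) : M.1 0 0 * M.1 1 1 - M.1 0 1 * M.1 1 0 = 1 := by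
  have := M.2
  rwa [Matrix.det_fin_two] at this

theorem mul00 (M M' : SL2) : (M * M').1 0 0 = M.1 0 0 * M'.1 0 0 + M.1 0 1 * M'.1 1 0 := by
  simp [Matrix.mul_apply, Fin.sum_univ_two]

theorem mul01 (M M' : SL2) : (M * M').1 0 1 = M.1 0 0 * M'.1 0 1 + M.1 0 1 * M'.1 1 1 := by
  simp [Matrix.mul_apply, Fin.sum_univ_two]

theorem mul10 (M M' : SL2) : (M * M').1 1 0 = M.1 1 0 * M'.1 0 0 + M.1 1 1 * M'.1 1 0 := by
  simp [Matrix.mul_apply, Fin.sum_univ_two]

theorem mul11 (M M' : SL2) : (M * M').1 1 1 = M.1 1 0 * M'.1 0 1 + M.1 1 1 * M'.1 1 1 := by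
  simp [Matrix.mul_apply, Fin.sum_univ_two]

theorem al_mul (M M' : SL2) : al (M * M') = al M * al M' + be M * conj (be M') := by
  apply Complex.ext
  · simp only [al, be, Complex.add_re, Complex.mul_re, Complex.conj_re, Complex.conj_im, mul00,
      mul11]
    ring
  · simp only [al, be, Complex.add_im, Complex.mul_im, Complex.conj_re, Complex.conj_im, mul10,
      mul01]
    ring

theorem be_mul (M M' : SL2) : be (M * M') = al M * be M' + be M * conj (al M') := by
  apply Complex.ext
  · simp only [al, be, Complex.add_re, Complex.mul_re, Complex.conj_re, Complex.conj_im, mul00,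
      mul11]
    ring
  · simp only [al, be, Complex.add_im, Complex.mul_im, Complex.conj_re, Complex.conj_im, mul10,
      mul01]
    ring

theorem al_one : al 1 = 1 := by
  apply Complex.ext <;> simp [al]

theorem be_one : be 1 = 0 := by
  apply Complex.ext <;> simp [be]

theorem al_rot (s : ℝ) : al (rot s) = exp (s * I) := by
  apply Complex.ext
  · rw [Complex.exp_ofReal_mul_I_re]
    simp [al, rot]
  · rw [Complex.exp_ofReal_mul_I_im]
    simp [al, rot]

theorem be_rot (s : ℝ) : be (rot s) = 0 := by
  apply Complex.ext <;> simp [be, rot]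

theorem act_mul (M M' : SL2) (z : ℂ) : act (M * M') z = act M (act M' z) := by
  unfold act
  rw [al_mul, be_mul]
  simp only [map_add, map_mul, Complex.conj_conj]
  ring

theorem act_one (z : ℂ) : act 1 z = z := by
  unfold act
  rw [al_one, be_one]
  ring

theorem act_rot (s : ℝ) (z : ℂ) : act (rot s) z = exp (s * I) * z := by
  unfold act
  rw [al_rot, be_rot]
  ring

theorem act_smul (M : SL2) (c : ℝ) (z : ℂ) : act M (c * z) = c * act M z := by
  unfold act
  simp only [map_mul, Complex.conj_ofReal]
  ring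

theorem act_add (M : SL2) (z w : ℂ) : act M (z + w) = act M z + act M w := by
  unfold act
  simp only [map_add]
  ring

theorem sq_sub (M : SL2) : ‖al M‖ ^ 2 - ‖be M‖ ^ 2 = 1 := by
  rw [← Complex.normSq_eq_norm_sq, ← Complex.normSq_eq_norm_sq, Complex.normSq_apply,
    Complex.normSq_apply]
  simp only [al, be]
  linear_combination det_eq M

/-- the norm of the matrix -/
noncomputable def nm (M : SL2) : ℝ := ‖al M‖ + ‖be M‖

theorem one_le_al (M : SL2) : 1 ≤ ‖al M‖ := by
  have h := sq_sub M
  nlinarith [norm_nonneg (al M), sq_nonneg ‖be M‖]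

theorem al_ne (M : SL2) : al M ≠ 0 := by
  intro h
  have := one_le_al M
  rw [h, norm_zero] at this
  linarith

theorem be_lt (M : SL2) : ‖be M‖ < ‖al M‖ := by
  have h := sq_sub M
  nlinarith [norm_nonneg (al M), norm_nonneg (be M)]

theorem one_le_nm (M : SL2) : 1 ≤ nm M := by
  unfold nm
  linarith [one_le_al M, norm_nonneg (be M)]

theorem nm_inv (M : SL2) : (‖al M‖ - ‖be M‖) * nm M = 1 := by
  unfold nm
  linear_combination sq_sub M

theorem act_le (M : SL2) (z : ℂ) : ‖act M z‖ ≤ nm M * ‖z‖ := by
  unfold act nm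
  refine (norm_add_le _ _).trans (le_of_eq ?_)
  rw [norm_mul, norm_mul, RCLike.norm_conj]
  ring

theorem le_act (M : SL2) (z : ℂ) : ‖z‖ ≤ nm M * ‖act M z‖ := by
  have h1 : (‖al M‖ - ‖be M‖) * ‖z‖ ≤ ‖act M z‖ := by
    unfold act
    have h2 := norm_sub_le (al M * z + be M * conj z) (be M * conj z)
    rw [add_sub_cancel_right, norm_mul, norm_mul, RCLike.norm_conj] at h2
    linarith
  have h3 := mul_le_mul_of_nonneg_left h1 (zero_le_one.trans (one_le_nm M))
  have h4 : nm M * ((‖al M‖ - ‖be M‖) * ‖z‖) = ‖z‖ := by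
    linear_combination ‖z‖ * nm_inv M
  linarith

theorem act_ne (M : SL2) {z : ℂ} (hz : z ≠ 0) : act M z ≠ 0 := by
  intro h
  have h1 := le_act M z
  rw [h, norm_zero, mul_zero] at h1
  exact hz (norm_le_zero_iff.1 h1)

theorem act_inj (M : SL2) {z w : ℂ} (h : act M z = act M w) : z = w := by
  by_contra hne
  have h1 : act M (z - w) = act M z - act M w := by
    unfold act
    simp only [map_sub]
    ring
  have := act_ne M (sub_ne_zero.2 hne)
  rw [h1, h, sub_self] at this
  exact this rfl

/-- the area form -/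
noncomputable def ar (u w : ℂ) : ℝ := (conj u * w).im

theorem ar_act (M : SL2) (u w : ℂ) : ar (act M u) (act M w) = ar u w := by
  have h := sq_sub M
  rw [← Complex.normSq_eq_norm_sq, ← Complex.normSq_eq_norm_sq, Complex.normSq_apply,
    Complex.normSq_apply] at h
  unfold ar act
  simp only [Complex.mul_im, Complex.mul_re, Complex.add_re, Complex.add_im, Complex.conj_re,
    Complex.conj_im, map_add, map_mul, Complex.conj_conj]
  linear_combination (u.re * w.im - u.im * w.re) * h

theorem trace_eq (M : SL2) : M.1 0 0 + M.1 1 1 = 2 * (al M).re := by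
  simp only [al]
  ring

/-- Cayley-Hamilton -/
theorem act_sq (M : SL2) (z : ℂ) :
    act M (act M z) = ((2 * (al M).re : ℝ) : ℂ) * act M z - z := by
  have h := sq_sub M
  rw [← Complex.normSq_eq_norm_sq, ← Complex.normSq_eq_norm_sq, Complex.normSq_apply,
    Complex.normSq_apply] at h
  unfold act
  apply Complex.ext
  · simp only [Complex.mul_im, Complex.mul_re, Complex.add_re, Complex.add_im, Complex.conj_re,
      Complex.conj_im, map_add, map_mul, Complex.conj_conj, Complex.sub_re, Complex.ofReal_re,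
      Complex.ofReal_im]
    linear_combination (-z.re) * h
  · simp only [Complex.mul_im, Complex.mul_re, Complex.add_re, Complex.add_im, Complex.conj_re,
      Complex.conj_im, map_add, map_mul, Complex.conj_conj, Complex.sub_im, Complex.ofReal_re,
      Complex.ofReal_im]
    linear_combination (-z.im) * h

/-- a matrix is determined by its action -/
theorem eq_of_act {M M' : SL2} (h : ∀ z, act M z = act M' z) : M = M' := by
  have h1 := h 1
  have hI := h I
  unfold act at h1 hI
  simp only [map_one, mul_one, Complex.conj_I] at h1 hI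
  have e1 := congrArg Complex.re h1
  have e2 := congrArg Complex.im h1
  have e3 := congrArg Complex.re hI
  have e4 := congrArg Complex.im hI
  simp only [al, be, Complex.add_re, Complex.add_im, Complex.mul_re, Complex.mul_im,
    Complex.neg_re, Complex.neg_im, Complex.I_re, Complex.I_im] at e1 e2 e3 e4
  apply Subtype.ext
  ext i j
  fin_cases i <;> fin_cases j
  · show M.1 0 0 = M'.1 0 0
    linarith
  · show M.1 0 1 = M'.1 0 1
    linarith
  · show M.1 1 0 = M'.1 1 0
    linarith
  · show M.1 1 1 = M'.1 1 1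
    linarith

end Pool.Agent.TH382.QC
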