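import Pool.Agent.TH382.QC.Torus

/-!
# Elements of `SL(2, ℝ)` which are not hyperbolic
-/

set_option autoImplicit false
set_option linter.unusedSectionVars false

open scoped Manifold ContDiff Topology ComplexConjugate
open Filter Set Metric

universe u

namespace Pool.Agent.TH382.QC

open Pool.Agent.H718R2.G Pool.Agent.W564.SC

theorem act_neg (M : SL2) (z : ℂ) : act M (-z) = -act M z := by
  unfold act
  rw [map_neg]
  ring

theorem pow_act_sin {M : SL2} {θ : ℝ} (h : (al M).re = Real.cos θ) (n : ℕ) (z : ℂ) :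
    (Real.sin θ : ℂ) * act (M ^ n) z =
      (Real.sin (n * θ) : ℝ) * act M z - (Real.sin ((n - 1) * θ) : ℝ) * z := by
  induction n with
  | zero =>
    simp only [pow_zero, act_one, Nat.cast_zero, zero_mul, Real.sin_zero, Complex.ofReal_zero,
      zero_sub, neg_mul, one_mul, Real.sin_neg, Complex.ofReal_neg]
    ring
  | succ n ih =>
    have e := congrArg (act M) ih
    have e2 : act M ((Real.sin (n * θ) : ℝ) * act M z - (Real.sin ((n - 1) * θ) : ℝ) * z) =
        (Real.sin (n * θ) : ℝ) * act M (act M z) - (Real.sin ((n - 1) * θ) : ℝ) * act M z := by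
      have e3 : ((Real.sin (n * θ) : ℝ) : ℂ) * act M z - (Real.sin ((n - 1) * θ) : ℝ) * z =
        ((Real.sin (n * θ) : ℝ) : ℂ) * act M z + ((-Real.sin ((n - 1) * θ) : ℝ) : ℂ) * z := by
        push_cast; ring
      rw [e3, act_add, act_smul, act_smul]
      push_cast
      ring
    rw [act_smul, ← act_mul, ← pow_succ', e2, act_sq, h] at e
    rw [e]
    have t1 : Real.sin ((n + 1 : ℕ) * θ) =
        2 * Real.cos θ * Real.sin (n * θ) - Real.sin ((n - 1) * θ) := by
      have a1 : ((n + 1 : ℕ) : ℝ) * θ = n * θ + θ := by push_cast; ring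
      have a2 : ((n : ℝ) - 1) * θ = n * θ - θ := by ring
      rw [a1, a2, Real.sin_add, Real.sin_sub]
      ring
    have t2 : Real.sin (((n + 1 : ℕ) - 1 : ℝ) * θ) = Real.sin (n * θ) := by
      congr 2
      push_cast
      ring
    rw [t1, t2]
    push_cast
    ring

/-- the powers of a non hyperbolic element grow at most linearly -/
theorem pow_lin {M : SL2} (h : |(al M).re| ≤ 1) (z : ℂ) :
    ∃ C : ℝ, 0 ≤ C ∧ ∀ m : ℕ, ‖act (M ^ m) z‖ ≤ C * (m + 1) := by
  rcases h.lt_or_eq with h1 | h1
  · obtain ⟨θ, hθ⟩ : ∃ θ, θ = Real.arccos (al M).re := ⟨_, rfl⟩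
    have h2 := abs_lt.1 h1
    have hc : (al M).re = Real.cos θ := by rw [hθ, Real.cos_arccos h2.1.le h2.2.le]
    have hs : 0 < Real.sin θ := by
      rw [hθ, Real.sin_arccos]
      apply Real.sqrt_pos.2
      nlinarith [h2.1, h2.2]
    refine ⟨(‖act M z‖ + ‖z‖) / Real.sin θ, by positivity, fun m => ?_⟩
    have h3 := congrArg norm (pow_act_sin hc m z)
    rw [norm_mul, Complex.norm_real, Real.norm_eq_abs, abs_of_pos hs] at h3
    have h4 : ‖((Real.sin (m * θ) : ℝ) : ℂ) * act M z - (Real.sin ((m - 1) * θ) : ℝ) * z‖ ≤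
        ‖act M z‖ + ‖z‖ := by
      refine (norm_sub_le _ _).trans ?_
      rw [norm_mul, norm_mul, Complex.norm_real, Complex.norm_real, Real.norm_eq_abs,
        Real.norm_eq_abs]
      have a1 := Real.abs_sin_le_one (m * θ)
      have a2 := Real.abs_sin_le_one ((m - 1) * θ)
      have b1 := mul_le_mul_of_nonneg_right a1 (norm_nonneg (act M z))
      have b2 := mul_le_mul_of_nonneg_right a2 (norm_nonneg z)
      linarith
    rw [← h3] at h4
    have h5 : ‖act (M ^ m) z‖ ≤ (‖act M z‖ + ‖z‖) / Real.sin θ := by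
      rw [le_div_iff₀ hs]
      linarith
    have h6 : 0 ≤ (‖act M z‖ + ‖z‖) / Real.sin θ := by positivity
    have h7 : (0 : ℝ) ≤ m := Nat.cast_nonneg m
    nlinarith
  · refine ⟨‖act M z‖ + 2 * ‖z‖, by positivity, fun m => ?_⟩
    have h7 : (0 : ℝ) ≤ m := Nat.cast_nonneg m
    rcases eq_or_eq_neg_of_abs_eq h1 with h2 | h2
    · have key : ∀ m : ℕ, act (M ^ m) z = z + (m : ℝ) * (act M z - z) := by
        intro m
        induction m with
        | zero => simp [act_one]
        | succ m ih =>
          have e : act M (z + ((m : ℝ) : ℂ) * (act M z - z)) =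
              act M z + (m : ℝ) * (act M (act M z) - act M z) := by
            rw [act_add, act_smul, sub_eq_add_neg, act_add, act_neg, ← sub_eq_add_neg]
          rw [pow_succ', act_mul, ih, e, act_sq, h2]
          push_cast
          ring
      rw [key]
      refine (norm_add_le _ _).trans ?_
      rw [norm_mul, Complex.norm_real, Real.norm_eq_abs, abs_of_nonneg h7]
      have := mul_le_mul_of_nonneg_left (norm_sub_le (act M z) z) h7
      nlinarith [norm_nonneg z, norm_nonneg (act M z), mul_nonneg h7 (norm_nonneg z)]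
    · have key : ∀ m : ℕ, act (M ^ m) z = (-1) ^ m * (z - (m : ℝ) * (act M z + z)) := by
        intro m
        induction m with
        | zero => simp [act_one]
        | succ m ih =>
          have e : act M ((-1) ^ m * (z - ((m : ℝ) : ℂ) * (act M z + z))) =
              (-1) ^ m * (act M z - (m : ℝ) * (act M (act M z) + act M z)) := by
            have e1 : ((-1 : ℂ) ^ m) = (((-1 : ℝ) ^ m : ℝ) : ℂ) := by push_cast; ring
            have e2 : z - ((m : ℝ) : ℂ) * (act M z + z) =
              z + ((-(m : ℝ) : ℝ) : ℂ) * (act M z + z) := by push_cast; ring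
            rw [e1, act_smul, e2, act_add, act_smul, act_add]
            push_cast
            ring
          rw [pow_succ', act_mul, ih, e, act_sq, h2, pow_succ]
          push_cast
          ring
      rw [key, norm_mul, norm_pow, norm_neg, norm_one, one_pow, one_mul]
      refine (norm_sub_le _ _).trans ?_
      rw [norm_mul, Complex.norm_real, Real.norm_eq_abs, abs_of_nonneg h7]
      have := mul_le_mul_of_nonneg_left (norm_add_le (act M z) z) h7
      nlinarith [norm_nonneg z, norm_nonneg (act M z), mul_nonneg h7 (norm_nonneg z)]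

theorem sum_le_act (M : SL2) : ∑ i, ∑ l, |M.1 i l| ≤ 2 * (‖act M 1‖ + ‖act M Complex.I‖) := by
  have e1 : act M 1 = ⟨M.1 0 0, M.1 1 0⟩ := by
    unfold act al be
    apply Complex.ext <;> simp <;> ring
  have e2 : act M Complex.I = ⟨M.1 0 1, M.1 1 1⟩ := by
    unfold act al be
    apply Complex.ext <;> simp <;> ring
  have a1 := Complex.abs_re_le_norm (act M 1)
  have a2 := Complex.abs_im_le_norm (act M 1)
  have a3 := Complex.abs_re_le_norm (act M Complex.I)
  have a4 := Complex.abs_im_le_norm (act M Complex.I)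
  rw [Fin.sum_univ_two, Fin.sum_univ_two, Fin.sum_univ_two]
  have b1 : (act M 1).re = M.1 0 0 := by rw [e1]
  have b2 : (act M 1).im = M.1 1 0 := by rw [e1]
  have b3 : (act M Complex.I).re = M.1 0 1 := by rw [e2]
  have b4 : (act M Complex.I).im = M.1 1 1 := by rw [e2]
  rw [b1] at a1
  rw [b2] at a2
  rw [b3] at a3
  rw [b4] at a4
  linarith

theorem coc_const {N : Type u} (g : SL2) (f : N → N) (m : ℕ) (y : N) :
    coc (fun _ => g) f m y = g ^ m := by
  induction m with
  | zero => rfl
  | succ m ih =>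
    show g * coc (fun _ => g) f m y = g ^ (m + 1)
    rw [ih, pow_succ']

theorem not_uh {N : Type u} {g : SL2} (hg : |(al g).re| ≤ 1) (f : N → N) {K : Set N} {z : N}
    (hz : z ∈ K) : ¬ UnifHypOn (fun _ => g) f K := by
  rintro ⟨c, κ, hc, hκ, h⟩
  obtain ⟨C₁, hC₁, h1⟩ := pow_lin hg 1
  obtain ⟨C₂, hC₂, h2⟩ := pow_lin hg Complex.I
  have h3 : ∀ m : ℕ, c ≤ (2 * (C₁ + C₂)) * ((m + 1 : ℝ) / κ ^ m) := by
    intro m
    have h4 := h z hz m
    rw [coc_const] at h4
    have h5 := sum_le_act (g ^ m)
    have h6 := h1 m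
    have h7 := h2 m
    have h8 : 0 < κ ^ m := by positivity
    rw [mul_div_assoc', le_div_iff₀ h8]
    linarith
  have h4 : Tendsto (fun m : ℕ => (2 * (C₁ + C₂)) * (((m : ℝ) + 1) / κ ^ m)) atTop (𝓝 0) := by
    have t1 := tendsto_pow_const_div_const_pow_of_one_lt 1 hκ
    have t2 := tendsto_pow_const_div_const_pow_of_one_lt 0 hκ
    have t3 := (t1.add t2).const_mul (2 * (C₁ + C₂))
    rw [add_zero, mul_zero] at t3
    refine t3.congr fun m => ?_
    rw [pow_one, pow_zero, add_div]
  have := ge_of_tendsto' h4 h3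
  linarith

variable {n : ℕ} {N : Type u} [TopologicalSpace N] [ChartedSpace (V n) N]
  [IsManifold (𝓡 n) ∞ N] {r : ℕ∞} {ρ : SL2 → N → N}

theorem elem [T2Space N] [CompactSpace N] (hρ : IsAct n N ρ) {g : SL2}
    (hg : |g.1 0 0 + g.1 1 1| ≤ 2) (F : DiffM n N r) (hF : ∀ y, F y = ρ g y) (z : N) :
    ClosableAt n N r F z := by
  have h := main hρ (A := fun _ => g) (Diffeomorph.refl (𝓡 n) N r) F
    ⟨fun _ _ => continuous_const, fun _ _ => rfl, fun _ _ => rfl, hF⟩ z
    (fun U _ hU => ⟨_, hU, fun _ _ => rfl, 1, le_rfl, rfl⟩)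
  refine h.resolve_left (not_uh ?_ _ (subset_closure ⟨0, Or.inl rfl⟩))
  have h1 := trace_eq g
  rw [h1, abs_mul, abs_two] at hg
  linarith

end Pool.Agent.TH382.QC
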