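import Pool.Agent.TH382.QC.Growth

/-!
# Elliptic products become of finite order
-/

set_option autoImplicit false

open Complex ComplexConjugate Filter Topology

namespace Pool.Agent.TH382.QC

theorem finite_order {M : SL2} {θ : ℝ} (h : (al M).re = Real.cos θ) (hs : Real.sin θ ≠ 0)
    {m : ℕ} {k : ℤ} (hm : m * θ = k * (2 * Real.pi)) : M ^ m = 1 := by
  have key : ∀ n : ℕ, ∀ z, (Real.sin θ : ℂ) * act (M ^ n) z =
      (Real.sin (n * θ) : ℝ) * act M z - (Real.sin ((n - 1) * θ) : ℝ) * z := by
    intro n z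
    induction n with
    | zero =>
      simp only [pow_zero, act_one, Nat.cast_zero, zero_mul, Real.sin_zero, Complex.ofReal_zero,
        zero_sub, neg_mul, one_mul, Real.sin_neg, Complex.ofReal_neg]
      ring
    | succ n ih =>
      have e := congrArg (act M) ih
      have e2 : act M ((Real.sin (n * θ) : ℝ) * act M z - (Real.sin ((n - 1) * θ) : ℝ) * z) =
          (Real.sin (n * θ) : ℝ) * act M (act M z) - (Real.sin ((n - 1) * θ) : ℝ) * act M z := by
        have e3 : ((Real.sin (n * θ) : ℝ) : ℂ) * act M z - (Real.sin ((n - 1) * θ) : ℝ) * z =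
          ((Real.sin (n * θ) : ℝ) : ℂ) * act M z + ((-Real.sin ((n - 1) * θ) : ℝ) : ℂ) * z := by
          push_cast; ring
        rw [e3, act_add, act_smul, act_smul]
        push_cast
        ring
      rw [act_smul, ← act_mul, ← pow_succ', e2, act_sq, h] at e
      rw [e]
      have t1 : Real.sin ((n + 1 : ℕ) * θ) =
          2 * Real.cos θ * Real.sin (n * θ) - Real.sin ((n - 1) * θ) := by
        have a1 : ((n + 1 : ℕ) : ℝ) * θ = n * θ + θ := by push_cast; ring
        have a2 : ((n : ℝ) - 1) * θ = n * θ - θ := by ring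
        rw [a1, a2, Real.sin_add, Real.sin_sub]
        ring
      have t2 : Real.sin (((n + 1 : ℕ) - 1 : ℝ) * θ) = Real.sin (n * θ) := by
        congr 2
        push_cast
        ring
      rw [t1, t2]
      push_cast
      ring
  apply eq_of_act
  intro z
  have h1 := key m z
  have h2 : Real.sin (m * θ) = 0 := by
    rw [hm, show (k : ℝ) * (2 * Real.pi) = ((2 * k : ℤ) : ℝ) * Real.pi by push_cast; ring]
    exact Real.sin_int_mul_pi _
  have h3 : Real.sin ((m - 1) * θ) = -Real.sin θ := by
    rw [sub_mul, one_mul, hm, ← neg_sub, Real.sin_neg, Real.sin_sub_int_mul_two_pi]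
  rw [h2, h3] at h1
  have h4 : (Real.sin θ : ℂ) ≠ 0 := by exact_mod_cast hs
  rw [act_one]
  apply mul_left_cancel₀ h4
  rw [h1]
  push_cast
  ring

/-- the derivative of the products in the angle -/
theorem deriv_P (B : ℕ → SL2) (j : ℕ) (s : ℝ) : ∃ κ : ℝ, ∃ ν : ℂ, ‖ν‖ ≤ κ ∧ (1 ≤ j → 0 < κ) ∧
    HasDerivAt (fun s => al (P B s j)) (I * κ * al (P B s j) + ν * conj (be (P B s j))) s ∧
    HasDerivAt (fun s => be (P B s j)) (I * κ * be (P B s j) + ν * conj (al (P B s j))) s := by
  induction j with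
  | zero =>
    refine ⟨0, 0, by simp, fun h => absurd h (by norm_num), ?_, ?_⟩
    · simp only [Complex.ofReal_zero, mul_zero, zero_mul, add_zero]
      exact hasDerivAt_const s (al 1)
    · simp only [Complex.ofReal_zero, mul_zero, zero_mul, add_zero]
      exact hasDerivAt_const s (be 1)
  | succ j ih =>
    obtain ⟨κ, ν, h1, -, h3, h4⟩ := ih
    set a := al (B j) with ha
    set b := be (B j) with hb
    set α := al (P B s j) with hα
    set β := be (P B s j) with hβ
    have hκ0 : 0 ≤ κ := (norm_nonneg _).trans h1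
    have hN : ‖a‖ ^ 2 - ‖b‖ ^ 2 = 1 := sq_sub (B j)
    have hNc : conj a * a - conj b * b = 1 := by
      rw [← Complex.normSq_eq_conj_mul_self, ← Complex.normSq_eq_conj_mul_self,
        Complex.normSq_eq_norm_sq, Complex.normSq_eq_norm_sq]
      exact_mod_cast hN
    have e : HasDerivAt (fun s : ℝ => exp (s * I)) (exp (s * I) * I) s := by
      have h5 : HasDerivAt (fun s : ℝ => (s : ℂ) * I) I s := by
        have := (Complex.ofRealCLM.hasDerivAt (x := s)).mul_const I
        simpa using this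
      exact h5.cexp
    have ha' : ∀ s, al (P B s (j + 1)) = exp (s * I) *
        (a * al (P B s j) + b * conj (be (P B s j))) := by
      intro s
      rw [P, al_mul, al_mul, be_mul, al_rot, be_rot]
      ring
    have hb' : ∀ s, be (P B s (j + 1)) = exp (s * I) *
        (a * be (P B s j) + b * conj (al (P B s j))) := by
      intro s
      rw [P, be_mul, al_mul, be_mul, al_rot, be_rot]
      ring
    have c1 : HasDerivAt (fun s => conj (al (P B s j))) (conj (I * κ * α + ν * conj β)) s :=
      Complex.conjCLE.toContinuousLinearMap.hasFDerivAt.comp_hasDerivAt s h3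
    have c2 : HasDerivAt (fun s => conj (be (P B s j))) (conj (I * κ * β + ν * conj α)) s :=
      Complex.conjCLE.toContinuousLinearMap.hasFDerivAt.comp_hasDerivAt s h4
    have hE : exp (s * I) * conj (exp (s * I)) = 1 := by
      rw [← Complex.exp_conj, ← Complex.exp_add, map_mul, Complex.conj_ofReal, Complex.conj_I]
      simp
    set E := exp (s * I) with hEdef
    have hE1 : ‖E‖ = 1 := Complex.norm_exp_ofReal_mul_I s
    set κ' : ℝ := κ * (‖a‖ ^ 2 + ‖b‖ ^ 2) + 2 * (conj a * b * conj ν).im with hκ'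
    set ν' : ℂ := a ^ 2 * ν - b ^ 2 * conj ν - 2 * I * a * b * κ with hν'
    have hκ'c : (κ' : ℂ) * I = I * κ * (conj a * a + conj b * b) +
        (conj a * b * conj ν - a * conj b * ν) := by
      have e1 : (((conj a * b * conj ν).im : ℝ) : ℂ) * (2 * I) =
          conj a * b * conj ν - a * conj b * ν := by
        have := Complex.sub_conj (conj a * b * conj ν)
        rw [map_mul, map_mul, Complex.conj_conj, Complex.conj_conj] at this
        rw [this]
        push_cast
        ring
      have e2 : conj a * a = ((‖a‖ ^ 2 : ℝ) : ℂ) := by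
        rw [← Complex.normSq_eq_conj_mul_self, Complex.normSq_eq_norm_sq]
      have e3 : conj b * b = ((‖b‖ ^ 2 : ℝ) : ℂ) := by
        rw [← Complex.normSq_eq_conj_mul_self, Complex.normSq_eq_norm_sq]
      rw [← e1, e2, e3, hκ']
      push_cast
      ring
    have hκ'0 : 0 ≤ κ' := by
      have i1 : |(conj a * b * conj ν).im| ≤ ‖a‖ * ‖b‖ * κ := by
        refine (Complex.abs_im_le_norm _).trans ?_
        rw [norm_mul, norm_mul, RCLike.norm_conj, RCLike.norm_conj]
        exact mul_le_mul_of_nonneg_left h1 (by positivity)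
      have i2 := (abs_le.1 i1).1
      have i3 : 0 ≤ κ * (‖a‖ - ‖b‖) ^ 2 := by positivity
      rw [hκ']
      nlinarith
    have hsq : ‖ν'‖ ^ 2 = κ' ^ 2 - (κ ^ 2 - ‖ν‖ ^ 2) := by
      have hN2 := hN
      rw [hκ', hν']
      rw [← Complex.normSq_eq_norm_sq a, ← Complex.normSq_eq_norm_sq b, Complex.normSq_apply,
        Complex.normSq_apply] at hN2 ⊢
      rw [← Complex.normSq_eq_norm_sq ν, Complex.normSq_apply, ← Complex.normSq_eq_norm_sq,
        Complex.normSq_apply]
      simp only [Complex.mul_im, Complex.mul_re, Complex.add_re, Complex.add_im, Complex.conj_re,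
        Complex.conj_im, Complex.sub_re, Complex.sub_im, Complex.ofReal_re, Complex.ofReal_im,
        Complex.I_re, Complex.I_im, pow_two, Complex.re_ofNat, Complex.im_ofNat]
      linear_combination (κ * κ - (ν.re * ν.re + ν.im * ν.im)) *
        (-(a.re * a.re + a.im * a.im - (b.re * b.re + b.im * b.im)) - 1) * hN2
    have hle : ‖ν'‖ ≤ κ' := by
      have : ‖ν'‖ ^ 2 ≤ κ' ^ 2 := by
        rw [hsq]
        have : ‖ν‖ ^ 2 ≤ κ ^ 2 := pow_le_pow_left₀ (norm_nonneg _) h1 2
        linarith
      exact (pow_le_pow_iff_left₀ (norm_nonneg _) hκ'0 two_ne_zero).1 this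
    refine ⟨κ' + 1, E ^ 2 * ν', ?_, fun _ => by linarith, ?_, ?_⟩
    · rw [norm_mul, norm_pow, hE1, one_pow, one_mul]
      linarith
    · simp only [ha', hb']
      have := e.mul ((h3.const_mul a).add (c2.const_mul b))
      refine this.congr_deriv ?_
      simp only [map_add, map_mul, Complex.conj_I, Complex.conj_ofReal, Complex.conj_conj,
        Pi.add_apply]
      rw [← hα, ← hβ, ← hEdef]
      push_cast
      linear_combination (-E * (a * α + b * conj β)) * hκ'c -
        (E * ν' * (conj a * conj β + conj b * α)) * hE -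
        (E * (a * (I * κ * α + ν * conj β) + b * (-I * κ * conj β + conj ν * α))) * hNc
    · simp only [ha', hb']
      have := e.mul ((h4.const_mul a).add (c1.const_mul b))
      refine this.congr_deriv ?_
      simp only [map_add, map_mul, Complex.conj_I, Complex.conj_ofReal, Complex.conj_conj,
        Pi.add_apply]
      rw [← hα, ← hβ, ← hEdef]
      push_cast
      linear_combination (-E * (a * β + b * conj α)) * hκ'c -
        (E * ν' * (conj a * conj α + conj b * β)) * hE -
        (E * (a * (I * κ * β + ν * conj α) + b * (-I * κ * conj α + conj ν * β))) * hNc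

/-- the trace is not locally constant at an elliptic angle -/
theorem trace_moves (B : ℕ → SL2) {q : ℕ} (hq : 1 ≤ q) {s : ℝ} (h : |(al (P B s q)).re| < 1)
    (c : ℝ) : ∀ᶠ s' in 𝓝[≠] s, (al (P B s' q)).re ≠ c := by
  obtain ⟨κ, ν, h1, h2, h3, -⟩ := deriv_P B q s
  have hκ := h2 hq
  have h4 : HasDerivAt (fun s => (al (P B s q)).re)
      (I * κ * al (P B s q) + ν * conj (be (P B s q))).re s :=
    Complex.reCLM.hasFDerivAt.comp_hasDerivAt s h3
  refine h4.eventually_ne ?_
  set α := al (P B s q) with hα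
  set β := be (P B s q) with hβ
  have h5 := sq_sub (P B s q)
  rw [← hα, ← hβ, ← Complex.normSq_eq_norm_sq α, Complex.normSq_apply] at h5
  have h6 : α.re * α.re < 1 := by
    rw [← abs_mul_abs_self]
    nlinarith [abs_nonneg α.re]
  have h7 : ‖β‖ < |α.im| := by
    have : ‖β‖ ^ 2 < |α.im| ^ 2 := by
      rw [sq_abs]
      nlinarith
    exact (pow_lt_pow_iff_left₀ (norm_nonneg _) (abs_nonneg _) two_ne_zero).1 this
  have h8 : |(ν * conj β).re| ≤ κ * ‖β‖ := by
    refine (Complex.abs_re_le_norm _).trans ?_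
    rw [norm_mul, RCLike.norm_conj]
    exact mul_le_mul_of_nonneg_right h1 (norm_nonneg _)
  intro h9
  have h10 : (I * κ * α).re = -(κ * α.im) := by
    simp [Complex.mul_re, Complex.mul_im]
  rw [Complex.add_re, h10] at h9
  have h11 : |κ * α.im| ≤ κ * ‖β‖ := by
    have : κ * α.im = (ν * conj β).re := by linarith
    rw [this]
    exact h8
  rw [abs_mul, abs_of_pos hκ] at h11
  have := mul_lt_mul_of_pos_left h7 hκ
  linarith

/-- a rational angle with the cosine in a given interval -/
theorem exists_angle {a b : ℝ} (hab : a < b) (ha : -1 < a) (hb : b < 1) :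
    ∃ θ : ℝ, ∃ m : ℕ, ∃ k : ℤ, 1 ≤ m ∧ m * θ = k * (2 * Real.pi) ∧ Real.sin θ ≠ 0 ∧
      a < Real.cos θ ∧ Real.cos θ < b := by
  have hπ := Real.pi_pos
  have h1 : Real.arccos b < Real.arccos a :=
    Real.strictAntiOn_arccos ⟨ha.le, by linarith⟩ ⟨by linarith, hb.le⟩ hab
  have h2 : Real.arccos b / (2 * Real.pi) < Real.arccos a / (2 * Real.pi) :=
    div_lt_div_of_pos_right h1 (by linarith)
  obtain ⟨r, hr1, hr2⟩ := exists_rat_btwn h2
  rw [div_lt_iff₀ (by linarith)] at hr1
  rw [lt_div_iff₀ (by linarith)] at hr2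
  have h3 : 0 < Real.arccos b := Real.arccos_pos.2 hb
  have h4 : Real.arccos a ≤ Real.pi := Real.arccos_le_pi a
  refine ⟨r * (2 * Real.pi), r.den, r.num, r.pos, ?_, ?_, ?_, ?_⟩
  · have : (r.den : ℝ) * (r : ℝ) = r.num := by
      have := r.den_mul_eq_num
      exact_mod_cast this
    rw [← mul_assoc, this]
  · exact (Real.sin_pos_of_pos_of_lt_pi (by linarith) (by linarith)).ne'
  · have := Real.strictAntiOn_cos ⟨by linarith, by linarith⟩
      ⟨Real.arccos_nonneg a, h4⟩ hr2
    rwa [Real.cos_arccos ha.le (by linarith)] at this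
  · have := Real.strictAntiOn_cos ⟨h3.le, Real.arccos_le_pi b⟩ ⟨by linarith, by linarith⟩ hr1
    rwa [Real.cos_arccos (by linarith) hb.le] at this

/-- an elliptic product is of finite order for a nearby angle -/
theorem elliptic_close (B : ℕ → SL2) {q : ℕ} (hq : 1 ≤ q) {s₀ : ℝ}
    (h : |(al (P B s₀ q)).re| < 1) {δ : ℝ} (hδ : 0 < δ) :
    ∃ s, |s - s₀| < δ ∧ ∃ m : ℕ, 1 ≤ m ∧ P B s q ^ m = 1 := by
  have hc : Continuous (fun s => (al (P B s q)).re) :=
    Complex.continuous_re.comp (ab_cont B q).1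
  have h1 : ∀ᶠ s' in 𝓝[≠] s₀, (al (P B s' q)).re ≠ (al (P B s₀ q)).re :=
    trace_moves B hq h _
  have h2 : ∀ᶠ s' in 𝓝[≠] s₀, |(al (P B s' q)).re| < 1 :=
    (hc.abs.continuousAt.eventually_lt continuousAt_const h).filter_mono nhdsWithin_le_nhds
  have h3 : ∀ᶠ s' in 𝓝[≠] s₀, |s' - s₀| < δ := by
    have : ContinuousAt (fun s' : ℝ => |s' - s₀|) s₀ := by fun_prop
    exact (this.eventually_lt continuousAt_const (by simpa using hδ)).filter_mono
      nhdsWithin_le_nhds
  obtain ⟨s₁, h1, h2, h3⟩ := (h1.and (h2.and h3)).exists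
  obtain ⟨a, b, hab, ha, hb, hsub⟩ : ∃ a b : ℝ, a < b ∧ -1 < a ∧ b < 1 ∧
      Set.Icc a b ⊆ Set.uIcc (al (P B s₀ q)).re (al (P B s₁ q)).re := by
    have h4 := abs_lt.1 h
    have h5 := abs_lt.1 h2
    rcases lt_or_gt_of_ne h1 with h6 | h6
    · exact ⟨_, _, h6, h5.1, h4.2, by rw [Set.uIcc_of_ge h6.le]⟩
    · exact ⟨_, _, h6, h4.1, h5.2, by rw [Set.uIcc_of_le h6.le]⟩
  obtain ⟨θ, m, k, hm, hmk, hsin, hθ1, hθ2⟩ := exists_angle hab ha hb
  obtain ⟨s, hs, hs2⟩ := intermediate_value_uIcc hc.continuousOn (hsub ⟨hθ1.le, hθ2.le⟩)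
  exact ⟨s, (Set.abs_sub_left_of_mem_uIcc hs).trans_lt h3, m, hm,
    finite_order hs2 hsin hmk⟩

end Pool.Agent.TH382.QC
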