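import Pool.Agent.TH382.QC.Lift

/-!
# Products without elliptic rotations have separated bundles
-/

set_option autoImplicit false

open Complex ComplexConjugate Filter Topology

namespace Pool.Agent.TH382.QC

/-- the products of the rotated matrices -/
noncomputable def P (B : ℕ → SL2) (s : ℝ) : ℕ → SL2
  | 0 => 1
  | j + 1 => rot s * B j * P B s j

/-- the orbit of a direction -/
noncomputable def X (B : ℕ → SL2) (s x : ℝ) : ℕ → ℝ
  | 0 => x
  | j + 1 => L (B j) (X B s x j) + s

theorem P_X (B : ℕ → SL2) (s x : ℝ) (j : ℕ) :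
    ∃ r : ℝ, 0 < r ∧ act (P B s j) (un x) = r * un (X B s x j) := by
  induction j with
  | zero => exact ⟨1, one_pos, by simp [P, X, act_one]⟩
  | succ j ih =>
    obtain ⟨r, hr, h⟩ := ih
    refine ⟨r * ‖act (B j) (un (X B s x j))‖,
      mul_pos hr (norm_pos_iff.2 (act_ne _ (un_ne _))), ?_⟩
    have e : act (P B s (j + 1)) (un x) =
        exp (s * I) * (r * act (B j) (un (X B s x j))) := by
      rw [P, act_mul, act_mul, act_rot, h, act_smul]
    have e2 : un (X B s x (j + 1)) = un (L (B j) (X B s x j)) * exp (s * I) := by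
      rw [X, un_add]
      rfl
    rw [e, e2, lift (B j) (X B s x j)]
    simp only [Complex.ofReal_mul, norm_mul, norm_un, Complex.norm_real, norm_norm, mul_one]
    ring

theorem X_cont (B : ℕ → SL2) (x : ℝ) (j : ℕ) : Continuous (fun s => X B s x j) := by
  induction j with
  | zero => exact continuous_const
  | succ j ih => exact ((L_cont _).comp ih).add continuous_id

theorem X_mono (B : ℕ → SL2) (s : ℝ) (j : ℕ) : StrictMono (fun x => X B s x j) := by
  induction j with
  | zero => exact strictMono_id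
  | succ j ih =>
    intro x y hxy
    show L (B j) (X B s x j) + s < L (B j) (X B s y j) + s
    have := L_mono (B j) (ih hxy)
    linarith

theorem X_le (B : ℕ → SL2) {s s' : ℝ} (h : s ≤ s') (x : ℝ) (j : ℕ) :
    X B s x j ≤ X B s' x j := by
  induction j with
  | zero => exact le_rfl
  | succ j ih =>
    show L (B j) (X B s x j) + s ≤ L (B j) (X B s' x j) + s'
    have := (L_mono (B j)).monotone ih
    linarith

theorem X_lt (B : ℕ → SL2) {s s' : ℝ} (h : s < s') (x : ℝ) {j : ℕ} (hj : 1 ≤ j) :
    X B s x j < X B s' x j := by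
  obtain ⟨i, rfl⟩ := Nat.exists_eq_add_of_le hj
  rw [add_comm]
  show L (B i) (X B s x i) + s < L (B i) (X B s' x i) + s'
  have := (L_mono (B i)).monotone (X_le B h.le x i)
  linarith

theorem X_int (B : ℕ → SL2) (s x : ℝ) (k : ℤ) (j : ℕ) :
    X B s (x + k * Real.pi) j = X B s x j + k * Real.pi := by
  induction j with
  | zero => rfl
  | succ j ih =>
    show L (B j) (X B s (x + k * Real.pi) j) + s = L (B j) (X B s x j) + s + k * Real.pi
    rw [ih, L_int]
    ring

theorem X_shift {B : ℕ → SL2} {q : ℕ} (hB : ∀ j, B (j + q) = B j) (s x : ℝ) (j : ℕ) :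
    X B s x (j + q) = X B s (X B s x q) j := by
  induction j with
  | zero => rw [zero_add]; rfl
  | succ j ih =>
    rw [show j + 1 + q = (j + q) + 1 by ring]
    show L (B (j + q)) (X B s x (j + q)) + s = L (B j) (X B s (X B s x q) j) + s
    rw [hB, ih]

theorem X_per {B : ℕ → SL2} {q : ℕ} (hB : ∀ j, B (j + q) = B j) {s x : ℝ} {k : ℤ}
    (h : X B s x q = x + k * Real.pi) (m : ℕ) :
    X B s x (m * q) = x + (m * k : ℤ) * Real.pi := by
  induction m with
  | zero => simp [X]
  | succ m ih =>
    rw [show (m + 1) * q = m * q + q by ring, X_shift hB, h, X_int, ih]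
    push_cast
    ring

theorem ab_cont (B : ℕ → SL2) (j : ℕ) :
    Continuous (fun s => al (P B s j)) ∧ Continuous (fun s => be (P B s j)) := by
  induction j with
  | zero =>
    refine ⟨?_, ?_⟩
    · show Continuous (fun _ : ℝ => al 1)
      exact continuous_const
    · show Continuous (fun _ : ℝ => be 1)
      exact continuous_const
  | succ j ih =>
    have e : Continuous (fun s : ℝ => exp (s * I)) := by fun_prop
    have ha : ∀ s, al (P B s (j + 1)) = exp (s * I) *
        (al (B j) * al (P B s j) + be (B j) * conj (be (P B s j))) := by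
      intro s
      rw [P, al_mul, al_mul, be_mul, al_rot, be_rot]
      ring
    have hb : ∀ s, be (P B s (j + 1)) = exp (s * I) *
        (al (B j) * be (P B s j) + be (B j) * conj (al (P B s j))) := by
      intro s
      rw [P, be_mul, al_mul, be_mul, al_rot, be_rot]
      ring
    simp only [ha, hb]
    have h1 := ih.1
    have h2 := ih.2
    have c1 : Continuous (fun s => conj (al (P B s j))) := Complex.continuous_conj.comp h1
    have c2 : Continuous (fun s => conj (be (P B s j))) := Complex.continuous_conj.comp h2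
    exact ⟨e.mul ((continuous_const.mul h1).add (continuous_const.mul c2)),
      e.mul ((continuous_const.mul h2).add (continuous_const.mul c1))⟩

/-- a non elliptic matrix has an eigenvector -/
theorem eigen (M : SL2) (h : 1 ≤ |(al M).re|) : ∃ x μ : ℝ, act M (un x) = μ * un x := by
  by_cases hb : be M = 0
  · refine ⟨0, (al M).re, ?_⟩
    have h1 := sq_sub M
    rw [hb, norm_zero] at h1
    have h2 : (al M).im = 0 := by
      have h3 : (al M).re * (al M).re + (al M).im * (al M).im = 1 := by
        rw [← Complex.normSq_apply, Complex.normSq_eq_norm_sq]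
        linarith
      have h4 : 1 ≤ (al M).re * (al M).re := by
        rw [← abs_mul_abs_self]
        nlinarith
      nlinarith
    unfold act
    rw [hb, zero_mul, add_zero]
    congr 1
    apply Complex.ext
    · simp
    · simp [h2]
  · set t := (al M).re with ht
    set μ : ℝ := t + Real.sqrt (t * t - 1) with hμ
    have h4 : 0 ≤ t * t - 1 := by
      rw [← abs_mul_abs_self]
      nlinarith
    have h5 : μ * μ - 2 * t * μ + 1 = 0 := by
      have := Real.mul_self_sqrt h4
      rw [hμ]
      linear_combination this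
    have h6 : ‖(μ : ℂ) - al M‖ = ‖be M‖ := by
      have h7 : ‖(μ : ℂ) - al M‖ ^ 2 = ‖be M‖ ^ 2 := by
        have h8 := sq_sub M
        rw [← Complex.normSq_eq_norm_sq (al M), Complex.normSq_apply] at h8
        rw [← Complex.normSq_eq_norm_sq, Complex.normSq_apply]
        simp only [Complex.sub_re, Complex.sub_im, Complex.ofReal_re, Complex.ofReal_im]
        rw [← ht] at h8 ⊢
        linear_combination h5 + h8
      exact (pow_left_inj₀ (norm_nonneg _) (norm_nonneg _) two_ne_zero).1 h7
    have h9 : (μ : ℂ) - al M ≠ 0 := by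
      intro h
      rw [h, norm_zero] at h6
      exact hb (norm_eq_zero.1 h6.symm)
    refine ⟨(be M / (μ - al M)).arg / 2, μ, ?_⟩
    set x := (be M / (μ - al M)).arg / 2 with hx
    have h10 : un (x + x) = be M / (μ - al M) := by
      have h11 : ‖be M / (μ - al M)‖ = 1 := by
        rw [norm_div, h6, div_self]
        exact norm_ne_zero_iff.2 hb
      have h12 := Complex.norm_mul_exp_arg_mul_I (be M / (μ - al M))
      rw [h11, Complex.ofReal_one, one_mul] at h12
      rw [hx, add_halves]
      exact h12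
    rw [un_add] at h10
    have h13 : un (-x) * un x = 1 := by
      rw [← un_add, neg_add_cancel]
      simp [un]
    have h14 : un x * un x * (μ - al M) = be M := by
      rw [h10]
      field_simp
    unfold act
    rw [conj_un, ← h14]
    linear_combination (un x * (μ - al M)) * h13

/-- parity -/
theorem parity {M : SL2} {x y r : ℝ} {k : ℤ} (hr : 0 < r) (h : act M (un x) = r * un y)
    (hk : y = x + k * Real.pi) : (0 < (al M).re → Even k) ∧ ((al M).re < 0 → Odd k) := by
  have hu : ∀ k : ℤ, un (x + k * Real.pi) = ((-1 : ℝ) ^ k : ℝ) * un x := by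
    have h0 : ∀ n : ℕ, ∀ x, un (x + n * Real.pi) = (-1) ^ n * un x := by
      intro n
      induction n with
      | zero => intro x; simp
      | succ n ih =>
        intro x
        have e : x + ((n + 1 : ℕ) : ℝ) * Real.pi = x + n * Real.pi + Real.pi := by
          push_cast; ring
        rw [e, un_pi, ih, pow_succ]
        ring
    intro k
    obtain ⟨n, rfl | rfl⟩ := k.eq_nat_or_neg
    · rw [zpow_natCast]
      push_cast
      exact h0 n x
    · have h1 := h0 n (x + ((-(n : ℤ) : ℤ) : ℝ) * Real.pi)
      have e : x + ((-(n : ℤ) : ℤ) : ℝ) * Real.pi + n * Real.pi = x := by push_cast; ring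
      rw [e] at h1
      rw [h1, zpow_neg, zpow_natCast]
      push_cast
      rw [← mul_assoc, inv_mul_cancel₀ (pow_ne_zero _ (by norm_num)), one_mul]
  have h1 : act M (un x) = ((r * (-1) ^ k : ℝ) : ℂ) * un x := by
    rw [h, hk, hu]
    push_cast
    ring
  set μ : ℝ := r * (-1) ^ k with hμ
  have h2 := act_sq M (un x)
  rw [h1, act_smul, h1] at h2
  have h3 : ((μ * μ : ℝ) : ℂ) = ((2 * (al M).re * μ - 1 : ℝ) : ℂ) := by
    apply mul_right_cancel₀ (un_ne x)
    push_cast at h2 ⊢
    linear_combination h2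
  have h4 : μ * μ = 2 * (al M).re * μ - 1 := by exact_mod_cast h3
  constructor
  · intro hp
    by_contra hodd
    have h5 : (-1 : ℝ) ^ k = -1 := (Int.not_even_iff_odd.1 hodd).neg_one_zpow
    rw [h5] at hμ
    nlinarith
  · intro hn
    by_contra heven
    have h5 : (-1 : ℝ) ^ k = 1 := (Int.not_odd_iff_even.1 heven).neg_one_zpow
    rw [h5] at hμ
    nlinarith

/-- the sign of the trace is constant -/
theorem sign_const {B : ℕ → SL2} {q : ℕ} {ε : ℝ}
    (h : ∀ s, |s| ≤ ε → 1 ≤ |(al (P B s q)).re|) :
    (∀ s, |s| ≤ ε → 0 < (al (P B s q)).re) ∨ (∀ s, |s| ≤ ε → (al (P B s q)).re < 0) := by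
  have hc : Continuous (fun s => (al (P B s q)).re) :=
    Complex.continuous_re.comp (ab_cont B q).1
  by_contra hcon
  push Not at hcon
  obtain ⟨⟨a, ha, ha'⟩, b, hb, hb'⟩ := hcon
  have hpre : IsPreconnected (Set.Icc (-ε) ε) := isPreconnected_Icc
  obtain ⟨c, hc1, hc2⟩ := hpre.intermediate_value (abs_le.1 ha) (abs_le.1 hb) hc.continuousOn
    ⟨ha', hb'⟩
  have := h c (abs_le.2 hc1)
  simp only at hc2
  rw [hc2, abs_zero] at this
  linarith

/-- a crossing gives a direction of the right parity -/
theorem same_parity {B : ℕ → SL2} {q : ℕ} {ε : ℝ}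
    (h : ∀ s, |s| ≤ ε → 1 ≤ |(al (P B s q)).re|) {s s' x x' : ℝ} {k k' : ℤ} (hs : |s| ≤ ε)
    (hs' : |s'| ≤ ε) (e : X B s x q = x + k * Real.pi) (e' : X B s' x' q = x' + k' * Real.pi) :
    Even (k - k') := by
  obtain ⟨r, hr, h1⟩ := P_X B s x q
  obtain ⟨r', hr', h1'⟩ := P_X B s' x' q
  have h2 := parity hr h1 e
  have h2' := parity hr' h1' e'
  rcases sign_const h with h3 | h3
  · exact (h2.1 (h3 s hs)).sub (h2'.1 (h3 s' hs'))
  · exact (h2.2 (h3 s hs)).sub_odd (h2'.2 (h3 s' hs'))

/-- the two invariant bundles -/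
theorem gap {B : ℕ → SL2} {q : ℕ} (hq : 1 ≤ q) (hB : ∀ j, B (j + q) = B j) {ε : ℝ} (hε : 0 < ε)
    (h : ∀ s, |s| ≤ ε → 1 ≤ |(al (P B s q)).re|) :
    ∃ xm xp : ℕ → ℝ, (∀ j, xm (j + 1) = L (B j) (xm j) - ε) ∧
      (∀ j, xp (j + 1) = L (B j) (xp j) + ε) ∧ ∀ j, xm j < xp j ∧ xp j < xm j + Real.pi := by
  have hπ := Real.pi_pos
  have hfix : ∀ s, |s| ≤ ε → ∃ x : ℝ, ∃ k : ℤ, X B s x q = x + k * Real.pi := by
    intro s hs
    obtain ⟨x, μ, hx⟩ := eigen _ (h s hs)
    obtain ⟨r, hr, hx2⟩ := P_X B s x q
    have hμ : μ ≠ 0 := by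
      intro h0
      rw [h0, Complex.ofReal_zero, zero_mul] at hx
      exact act_ne _ (un_ne x) hx
    refine ⟨x, un_line (r := μ / r) (div_ne_zero hμ hr.ne') ?_⟩
    rw [hx] at hx2
    have : (r : ℂ) ≠ 0 := by exact_mod_cast hr.ne'
    push_cast
    field_simp
    rw [mul_comm]
    exact hx2.symm
  have hm1 : |(-ε)| ≤ ε := by rw [abs_neg, abs_of_pos hε]
  have hp1 : |ε| ≤ ε := by rw [abs_of_pos hε]
  obtain ⟨xm, km, hxm⟩ := hfix (-ε) hm1
  obtain ⟨x0, k0, hx0⟩ := hfix ε hp1
  -- move the second one
  obtain ⟨i, hi1, hi2⟩ : ∃ i : ℤ, xm ≤ x0 + i * Real.pi ∧ x0 + i * Real.pi < xm + Real.pi := by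
    obtain ⟨i, hi, -⟩ := existsUnique_add_zsmul_mem_Ico hπ x0 xm
    exact ⟨i, by simpa using hi.1, by simpa using hi.2⟩
  set xp := x0 + i * Real.pi with hxpdef
  have hxp : X B ε xp q = xp + k0 * Real.pi := by
    rw [hxpdef, X_int, hx0]
    ring
  -- no crossing
  have hno : X B ε xm q < xm + (km + 1 : ℤ) * Real.pi := by
    by_contra hcon
    push Not at hcon
    have hpre : IsPreconnected (Set.Icc (-ε) ε) := isPreconnected_Icc
    obtain ⟨c, hc1, hc2⟩ := hpre.intermediate_value (a := -ε) (b := ε)
      (Set.left_mem_Icc.2 (by linarith)) (Set.right_mem_Icc.2 (by linarith))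
      (X_cont B xm q).continuousOn
      (show xm + (km + 1 : ℤ) * Real.pi ∈ _ from ⟨by rw [hxm]; push_cast; linarith, hcon⟩)
    have := same_parity h (abs_le.2 hc1) hm1 hc2 hxm
    rw [add_sub_cancel_left] at this
    exact absurd this (by decide)
  have hl1 : xm + km * Real.pi < X B ε xp q := by
    have h1 := X_lt B (show -ε < ε by linarith) xm hq
    have h2 : X B ε xm q ≤ X B ε xp q := (X_mono B ε q).monotone hi1
    rw [hxm] at h1
    linarith
  have hl2 : X B ε xp q < xm + (km + 2 : ℤ) * Real.pi := by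
    have h2 : X B ε xp q < X B ε (xm + Real.pi) q := X_mono B ε q hi2
    have h3 := X_int B ε xm 1 q
    simp only [Int.cast_one, one_mul] at h3
    rw [h3] at h2
    push_cast at hno ⊢
    linarith
  rw [hxp] at hl1 hl2
  have hk1 : km ≤ k0 := by
    have : ((km - 1 : ℤ) : ℝ) * Real.pi < k0 * Real.pi := by push_cast; linarith
    have := lt_of_mul_lt_mul_right this hπ.le
    have : km - 1 < k0 := by exact_mod_cast this
    omega
  have hk2 : k0 ≤ km + 1 := by
    have : (k0 : ℝ) * Real.pi < ((km + 2 : ℤ) : ℝ) * Real.pi := by linarith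
    have := lt_of_mul_lt_mul_right this hπ.le
    have : k0 < km + 2 := by exact_mod_cast this
    omega
  have hk3 := same_parity h hp1 hm1 hxp hxm
  have hk : k0 = km := by
    obtain ⟨t, ht⟩ := hk3
    omega
  rw [hk] at hxp
  -- the sequences
  refine ⟨fun j => X B (-ε) xm j, fun j => X B ε xp j, ?_, fun j => rfl, ?_⟩
  · intro j
    show L (B j) _ + -ε = _
    ring
  · have hle : ∀ j, X B (-ε) xm j ≤ X B ε xp j := fun j =>
      (X_le B (show -ε ≤ ε by linarith) xm j).trans ((X_mono B ε j).monotone hi1)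
    have hlt0 : xm < xp := by
      rcases hi1.lt_or_eq with h1 | h1
      · exact h1
      · exfalso
        rw [← h1] at hxp
        have h2 := X_lt B (show -ε < ε by linarith) xm hq
        rw [hxm, hxp] at h2
        exact lt_irrefl _ h2
    have hlt : ∀ j, X B (-ε) xm j < X B ε xp j := fun j =>
      (X_le B (show -ε ≤ ε by linarith) xm j).trans_lt (X_mono B ε j hlt0)
    have hup : ∀ j, X B ε xp j < X B (-ε) xm j + Real.pi := by
      intro j
      by_contra hcon
      push Not at hcon
      have hall : ∀ i, X B (-ε) xm (j + i) + Real.pi ≤ X B ε xp (j + i) := by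
        intro i
        induction i with
        | zero => exact hcon
        | succ i ih =>
          show L (B (j + i)) (X B (-ε) xm (j + i)) + -ε + Real.pi ≤
            L (B (j + i)) (X B ε xp (j + i)) + ε
          have h1 := (L_mono (B (j + i))).monotone ih
          rw [L_pi] at h1
          linarith
      have h1 := hall (j * q - j)
      have e : j + (j * q - j) = j * q := by
        have : j ≤ j * q := Nat.le_mul_of_pos_right j hq
        omega
      rw [e, X_per hB hxm, X_per hB hxp] at h1
      linarith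
    exact fun j => ⟨hlt j, hup j⟩

end Pool.Agent.TH382.QC
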