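import Pool.Agent.TH382.QC.Gap

/-!
# Separated bundles with a definite opening give exponential growth
-/

set_option autoImplicit false

open Complex ComplexConjugate Filter Topology

namespace Pool.Agent.TH382.QC

/-- the products -/
noncomputable def Q (B : ℕ → SL2) (j : ℕ) : ℕ → SL2
  | 0 => 1
  | n + 1 => B (j + n) * Q B j n

theorem ar_basis (u v w : ℂ) : (ar u v : ℂ) * w = ar w v * u + ar u w * v := by
  unfold ar
  apply Complex.ext
  · simp only [Complex.mul_im, Complex.mul_re, Complex.add_re, Complex.conj_re,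
      Complex.conj_im, Complex.ofReal_re, Complex.ofReal_im]
    ring
  · simp only [Complex.mul_im, Complex.add_im, Complex.conj_re,
      Complex.conj_im, Complex.ofReal_re, Complex.ofReal_im]
    ring

theorem ar_le (u w : ℂ) : ar u w ≤ ‖u‖ * ‖w‖ := by
  unfold ar
  calc (conj u * w).im ≤ |(conj u * w).im| := le_abs_self _
    _ ≤ ‖conj u * w‖ := Complex.abs_im_le_norm _
    _ = ‖u‖ * ‖w‖ := by rw [norm_mul, RCLike.norm_conj]

theorem ar_add (u v w : ℂ) : ar u (v + w) = ar u v + ar u w := by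
  unfold ar
  rw [mul_add, Complex.add_im]

theorem ar_add' (u v w : ℂ) : ar (u + v) w = ar u w + ar v w := by
  unfold ar
  rw [map_add, add_mul, Complex.add_im]

theorem ar_smul (u w : ℂ) (c : ℝ) : ar u (c * w) = c * ar u w := by
  unfold ar
  simp only [Complex.mul_im, Complex.mul_re, Complex.ofReal_re, Complex.ofReal_im]
  ring

theorem ar_smul' (u w : ℂ) (c : ℝ) : ar (c * u) w = c * ar u w := by
  unfold ar
  simp only [Complex.mul_im, Complex.mul_re, Complex.ofReal_re, Complex.ofReal_im, map_mul,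
    Complex.conj_ofReal]
  ring

theorem ar_self (u : ℂ) : ar u u = 0 := by
  unfold ar
  simp only [Complex.mul_im, Complex.conj_re, Complex.conj_im]
  ring

/-- the situation of one step -/
structure Step (M : SL2) (xm xp ym yp ε : ℝ) : Prop where
  pos : 0 < ε
  ex : xm < xp
  ex' : xp < xm + Real.pi
  ey : yp < ym + Real.pi
  hm : ym = L M xm - ε
  hp : yp = L M xp + ε

theorem Step.two_eps {M : SL2} {xm xp ym yp ε : ℝ} (h : Step M xm xp ym yp ε) :
    2 * ε < yp - ym := by
  have := L_mono M h.ex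
  have h1 := h.hm
  have h2 := h.hp
  linarith

/-- elementary facts on the sines -/
theorem sines {ω ε : ℝ} (hε : 0 < ε) (h1 : 2 * ε < ω) (h2 : ω < Real.pi) :
    0 < Real.sin ε ∧ Real.sin ε < Real.sin (ω - ε) ∧ 0 < Real.sin (ω - 2 * ε) ∧
      0 < Real.sin ω ∧
      Real.sin (ω - 2 * ε) * Real.sin ω = Real.sin (ω - ε) ^ 2 - Real.sin ε ^ 2 := by
  have e : Real.sin (ω - 2 * ε) * Real.sin ω = Real.sin (ω - ε) ^ 2 - Real.sin ε ^ 2 := by
    have e1 : Real.sin (ω - 2 * ε) = Real.sin ((ω - ε) - ε) := by ring_nf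
    have e2 : Real.sin ω = Real.sin ((ω - ε) + ε) := by ring_nf
    rw [e1, e2, Real.sin_sub, Real.sin_add]
    have h3 := Real.sin_sq_add_cos_sq ε
    have h4 := Real.sin_sq_add_cos_sq (ω - ε)
    linear_combination (Real.sin (ω - ε)) ^ 2 * h3 - (Real.sin ε) ^ 2 * h4
  have p1 : 0 < Real.sin ε := Real.sin_pos_of_pos_of_lt_pi hε (by linarith)
  have p2 : 0 < Real.sin (ω - 2 * ε) := Real.sin_pos_of_pos_of_lt_pi (by linarith) (by linarith)
  have p3 : 0 < Real.sin ω := Real.sin_pos_of_pos_of_lt_pi (by linarith) h2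
  have p4 : 0 < Real.sin (ω - ε) := Real.sin_pos_of_pos_of_lt_pi (by linarith) (by linarith)
  refine ⟨p1, ?_, p2, p3, e⟩
  nlinarith [mul_pos p2 p3]

/-- one step of the growth -/
theorem Step.grow {M : SL2} {xm xp ym yp ε : ℝ} (h : Step M xm xp ym yp ε) {w : ℂ}
    (hp : 0 ≤ ar (un xm) w) (hm : 0 ≤ ar w (un xp)) :
    0 ≤ ar (un ym) (act M w) ∧ 0 ≤ ar (act M w) (un yp) ∧
      (1 + 2 * Real.sin ε) * (ar (un xm) w * ar w (un xp)) * Real.sin (yp - ym) ≤
        ar (un ym) (act M w) * ar (act M w) (un yp) * Real.sin (xp - xm) := by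
  obtain ⟨s1, s2, s3, s4, s5⟩ := sines h.pos h.two_eps (by linarith [h.ey])
  have sω : 0 < Real.sin (xp - xm) :=
    Real.sin_pos_of_pos_of_lt_pi (by linarith [h.ex]) (by linarith [h.ex'])
  set p := ar (un xm) w with hpdef
  set m := ar w (un xp) with hmdef
  set rm := ‖act M (un xm)‖ with hrm
  set rp := ‖act M (un xp)‖ with hrp
  have hrm0 : 0 < rm := norm_pos_iff.2 (act_ne _ (un_ne _))
  have hrp0 : 0 < rp := norm_pos_iff.2 (act_ne _ (un_ne _))
  have hsin : Real.sin (xp - xm) = rm * rp * Real.sin ((yp - ym) - 2 * ε) := by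
    have e := ar_act M (un xm) (un xp)
    rw [ar_un, lift M xm, lift M xp, ar_smul', ar_smul, ar_un] at e
    rw [← e, h.hm, h.hp]
    rw [show L M xp + ε - (L M xm - ε) - 2 * ε = L M xp - L M xm by ring]
    ring
  have hw : (Real.sin (xp - xm) : ℂ) * act M w =
      (m * rm : ℝ) * un (L M xm) + (p * rp : ℝ) * un (L M xp) := by
    have e := ar_basis (un xm) (un xp) w
    rw [ar_un, ← hpdef, ← hmdef] at e
    have e2 := congrArg (act M) e
    rw [act_smul, act_add, act_smul, act_smul, lift M xm, lift M xp] at e2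
    rw [e2]
    push_cast
    ring
  have e1 : Real.sin (xp - xm) * ar (un ym) (act M w) =
      m * rm * Real.sin ε + p * rp * Real.sin ((yp - ym) - ε) := by
    rw [← ar_smul, hw, ar_add, ar_smul, ar_smul, ar_un, ar_un, h.hm, h.hp]
    congr 3
    · ring
    · ring
  have e2 : Real.sin (xp - xm) * ar (act M w) (un yp) =
      m * rm * Real.sin ((yp - ym) - ε) + p * rp * Real.sin ε := by
    rw [← ar_smul', hw, ar_add', ar_smul', ar_smul', ar_un, ar_un, h.hm, h.hp]
    congr 3
    · ring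
    · ring
  set a := m * rm with ha
  set b := p * rp with hb
  set S1 := Real.sin ε with hS1
  set S2 := Real.sin ((yp - ym) - ε) with hS2
  set D := Real.sin ((yp - ym) - 2 * ε) with hD
  set T := Real.sin (yp - ym) with hT
  set p' := ar (un ym) (act M w) with hp'
  set m' := ar (act M w) (un yp) with hm'
  set σ := Real.sin (xp - xm) with hσ
  have ha0 : 0 ≤ a := mul_nonneg hm hrm0.le
  have hb0 : 0 ≤ b := mul_nonneg hp hrp0.le
  have S20 : 0 < S2 := s1.trans s2
  have S21 : S2 ≤ 1 := Real.sin_le_one _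
  have q1 : 0 ≤ p' := by
    have : 0 ≤ σ * p' := by rw [e1]; positivity
    exact nonneg_of_mul_nonneg_right this sω
  have q2 : 0 ≤ m' := by
    have : 0 ≤ σ * m' := by rw [e2]; positivity
    exact nonneg_of_mul_nonneg_right this sω
  refine ⟨q1, q2, ?_⟩
  have hab : a * b = p * m * (rm * rp) := by rw [ha, hb]; ring
  have k1 : (σ * p') * (σ * m') - a * b * (S1 + S2) ^ 2 = S1 * S2 * (a - b) ^ 2 := by
    rw [e1, e2]; ring
  have k2 : 0 ≤ S1 * S2 * (a - b) ^ 2 := by positivity
  have k3 : (1 + 2 * S1) * (D * T) ≤ (S1 + S2) ^ 2 := by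
    rw [s5]
    nlinarith [mul_pos s1 (show 0 < S1 + S2 by linarith)]
  have hab0 : 0 ≤ a * b := mul_nonneg ha0 hb0
  have k4 : (1 + 2 * S1) * (p * m) * T * σ ≤ (σ * p') * (σ * m') := by
    have : (1 + 2 * S1) * (p * m) * T * σ = a * b * ((1 + 2 * S1) * (D * T)) := by
      rw [hab, hsin]; ring
    rw [this]
    have := mul_le_mul_of_nonneg_left k3 hab0
    linarith
  have k5 : ((1 + 2 * S1) * (p * m) * T) * σ ≤ (p' * m' * σ) * σ := by
    calc _ ≤ _ := k4
      _ = _ := by ring
  exact le_of_mul_le_mul_right k5 sω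

/-- the opening is definite -/
theorem Step.open {M : SL2} {xm xp ym yp ε H : ℝ} (h : Step M xm xp ym yp ε)
    (h2 : 2 * ε ≤ xp - xm) (hH : nm M ≤ H) :
    Real.sin ε ^ 2 / H ^ 2 ≤ Real.sin (xp - xm) := by
  obtain ⟨s1, s2, s3, s4, s5⟩ := sines h.pos h.two_eps (by linarith [h.ey])
  have sω : 0 < Real.sin (xp - xm) :=
    Real.sin_pos_of_pos_of_lt_pi (by linarith [h.ex]) (by linarith [h.ex'])
  have hH1 : 1 ≤ H := (one_le_nm M).trans hH
  have hH0 : 0 < H := by linarith
  set rm := ‖act M (un xm)‖ with hrm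
  set rp := ‖act M (un xp)‖ with hrp
  have hrp0 : 0 < rp := norm_pos_iff.2 (act_ne _ (un_ne _))
  have hrm1 : 1 ≤ H * rm := by
    have := le_act M (un xm)
    rw [norm_un] at this
    exact this.trans (mul_le_mul_of_nonneg_right hH (norm_nonneg _))
  set n := ‖un xm + un xp‖ with hn
  have k1 : rm * Real.sin ε ≤ H * n := by
    have e1 : ar (un ym) (act M (un xm + un xp)) =
        rm * Real.sin ε + rp * Real.sin ((yp - ym) - ε) := by
      rw [act_add, ar_add, lift M xm, lift M xp, ar_smul, ar_smul, ar_un, ar_un, h.hm, h.hp]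
      congr 3
      · ring
      · ring
    have e2 := ar_le (un ym) (act M (un xm + un xp))
    rw [norm_un, one_mul, e1] at e2
    have e3 := act_le M (un xm + un xp)
    have e4 : 0 < rp * Real.sin ((yp - ym) - ε) := mul_pos hrp0 (s1.trans s2)
    have e5 : nm M * n ≤ H * n := mul_le_mul_of_nonneg_right hH (norm_nonneg _)
    linarith
  have k2 : Real.sin ε ≤ H ^ 2 * n := by
    have := mul_le_mul_of_nonneg_left k1 hH0.le
    nlinarith
  have k3 : n ^ 2 = 2 + 2 * Real.cos (xp - xm) := by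
    rw [hn, ← Complex.normSq_eq_norm_sq, Complex.normSq_apply]
    simp only [Complex.add_re, Complex.add_im, un_re, un_im]
    rw [Real.cos_sub]
    linear_combination Real.sin_sq_add_cos_sq xm + Real.sin_sq_add_cos_sq xp
  have k4 : 2 * Real.sin ε ^ 2 ≤ 1 - Real.cos (xp - xm) := by
    have c1 : Real.cos (xp - xm) ≤ Real.cos (2 * ε) :=
      Real.cos_le_cos_of_nonneg_of_le_pi (by linarith [h.pos]) (by linarith [h.ex']) h2
    rw [Real.cos_two_mul] at c1
    have := Real.sin_sq_add_cos_sq ε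
    nlinarith
  have k5 : (Real.sin ε * n) ^ 2 ≤ Real.sin (xp - xm) ^ 2 := by
    have h3 := Real.sin_sq_add_cos_sq (xp - xm)
    have h4 : 0 ≤ 1 + Real.cos (xp - xm) := by linarith [Real.neg_one_le_cos (xp - xm)]
    have h5 : (Real.sin ε * n) ^ 2 = (2 * Real.sin ε ^ 2) * (1 + Real.cos (xp - xm)) := by
      rw [mul_pow, k3]; ring
    rw [h5]
    have := mul_le_mul_of_nonneg_right k4 h4
    nlinarith
  have k6 : Real.sin ε * n ≤ Real.sin (xp - xm) := by
    exact (pow_le_pow_iff_left₀ (by positivity) sω.le two_ne_zero).1 k5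
  refine le_trans ?_ k6
  rw [div_le_iff₀ (by positivity)]
  calc Real.sin ε ^ 2 = Real.sin ε * Real.sin ε := by ring
    _ ≤ Real.sin ε * (H ^ 2 * n) := mul_le_mul_of_nonneg_left k2 s1.le
    _ = _ := by ring

/-- the uniform growth -/
theorem growth {B : ℕ → SL2} {q : ℕ} (hq : 1 ≤ q) (hB : ∀ j, B (j + q) = B j) {ε : ℝ}
    (hε : 0 < ε) (h : ∀ s, |s| ≤ ε → 1 ≤ |(al (P B s q)).re|) {H : ℝ}
    (hH : ∀ j, nm (B j) ≤ H) (j n : ℕ) :
    (Real.sin ε ^ 2 / H ^ 2) ^ 2 * (1 + 2 * Real.sin ε) ^ n ≤ 4 * nm (Q B j n) ^ 2 := by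
  obtain ⟨xm, xp, h1, h2, h3⟩ := gap hq hB hε h
  have hst : ∀ i, Step (B i) (xm i) (xp i) (xm (i + 1)) (xp (i + 1)) ε := fun i =>
    ⟨hε, (h3 i).1, (h3 i).2, (h3 (i + 1)).2, h1 i, h2 i⟩
  have hop : ∀ i, Real.sin ε ^ 2 / H ^ 2 ≤ Real.sin (xp (i + 1) - xm (i + 1)) := fun i =>
    (hst (i + 1)).open (hst i).two_eps.le (hH _)
  have hsp : ∀ i, 0 < Real.sin (xp i - xm i) := fun i =>
    Real.sin_pos_of_pos_of_lt_pi (by linarith [(h3 i).1]) (by linarith [(h3 i).2])
  have hs1 : 0 < Real.sin ε := (sines hε (hst 0).two_eps (by linarith [(h3 1).2])).1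
  -- the estimate from a positive time
  have key : ∀ j n, (Real.sin ε ^ 2 / H ^ 2) ^ 2 * (1 + 2 * Real.sin ε) ^ n ≤
      4 * nm (Q B (j + 1) n) ^ 2 := by
    intro j n
    set w : ℂ := un (xm (j + 1)) + un (xp (j + 1)) with hw
    have hit : ∀ i, 0 ≤ ar (un (xm (j + 1 + i))) (act (Q B (j + 1) i) w) ∧
        0 ≤ ar (act (Q B (j + 1) i) w) (un (xp (j + 1 + i))) ∧
        (1 + 2 * Real.sin ε) ^ i * Real.sin (xp (j + 1) - xm (j + 1)) *
          Real.sin (xp (j + 1 + i) - xm (j + 1 + i)) ≤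
        ar (un (xm (j + 1 + i))) (act (Q B (j + 1) i) w) *
          ar (act (Q B (j + 1) i) w) (un (xp (j + 1 + i))) := by
      intro i
      induction i with
      | zero =>
        have e1 : ar (un (xm (j + 1))) w = Real.sin (xp (j + 1) - xm (j + 1)) := by
          rw [hw, ar_add, ar_self, ar_un, zero_add]
        have e2 : ar w (un (xp (j + 1))) = Real.sin (xp (j + 1) - xm (j + 1)) := by
          rw [hw, ar_add', ar_self, ar_un, add_zero]
        simp only [Q, act_one, add_zero, pow_zero, one_mul]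
        rw [e1, e2]
        exact ⟨(hsp _).le, (hsp _).le, le_rfl⟩
      | succ i ih =>
        obtain ⟨i1, i2, i3⟩ := ih
        obtain ⟨g1, g2, g3⟩ := (hst (j + 1 + i)).grow i1 i2
        rw [← act_mul] at g1 g2 g3
        refine ⟨g1, g2, ?_⟩
        change (1 + 2 * Real.sin ε) ^ (i + 1) * Real.sin (xp (j + 1) - xm (j + 1)) *
          Real.sin (xp (j + 1 + i + 1) - xm (j + 1 + i + 1)) ≤
          ar (un (xm (j + 1 + i + 1))) (act (B (j + 1 + i) * Q B (j + 1) i) w) *
          ar (act (B (j + 1 + i) * Q B (j + 1) i) w) (un (xp (j + 1 + i + 1)))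
        have hpos := hsp (j + 1 + i)
        refine le_of_mul_le_mul_right ?_ hpos
        refine le_trans ?_ g3
        have hT := (hsp (j + 1 + i + 1)).le
        have := mul_le_mul_of_nonneg_right i3
          (mul_nonneg (show 0 ≤ 1 + 2 * Real.sin ε by linarith) hT)
        calc _ = ((1 + 2 * Real.sin ε) ^ i * Real.sin (xp (j + 1) - xm (j + 1)) *
          Real.sin (xp (j + 1 + i) - xm (j + 1 + i))) *
            ((1 + 2 * Real.sin ε) * Real.sin (xp (j + 1 + i + 1) - xm (j + 1 + i + 1))) := by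
              ring
          _ ≤ _ := this
          _ = _ := by ring
    obtain ⟨i1, i2, i3⟩ := hit n
    set W := act (Q B (j + 1) n) w with hW
    have n1 : ‖w‖ ≤ 2 := by
      refine (norm_add_le _ _).trans ?_
      rw [norm_un, norm_un]
      norm_num
    have n2 : ‖W‖ ≤ nm (Q B (j + 1) n) * 2 :=
      (act_le _ _).trans (mul_le_mul_of_nonneg_left n1 (by linarith [one_le_nm (Q B (j + 1) n)]))
    have n3 : ar (un (xm (j + 1 + n))) W ≤ ‖W‖ := by
      have := ar_le (un (xm (j + 1 + n))) W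
      rwa [norm_un, one_mul] at this
    have n4 : ar W (un (xp (j + 1 + n))) ≤ ‖W‖ := by
      have := ar_le W (un (xp (j + 1 + n)))
      rwa [norm_un, mul_one] at this
    have n5 : ar (un (xm (j + 1 + n))) W * ar W (un (xp (j + 1 + n))) ≤
        4 * nm (Q B (j + 1) n) ^ 2 := by
      calc _ ≤ ‖W‖ * ‖W‖ := mul_le_mul n3 n4 i2 (norm_nonneg _)
        _ ≤ (nm (Q B (j + 1) n) * 2) * (nm (Q B (j + 1) n) * 2) :=
          mul_le_mul n2 n2 (norm_nonneg _) (by linarith [one_le_nm (Q B (j + 1) n)])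
        _ = _ := by ring
    have n6 : (Real.sin ε ^ 2 / H ^ 2) ^ 2 ≤ Real.sin (xp (j + 1) - xm (j + 1)) *
        Real.sin (xp (j + 1 + n) - xm (j + 1 + n)) := by
      rw [sq]
      have e : j + 1 + n = (j + n) + 1 := by ring
      rw [e]
      exact mul_le_mul (hop j) (hop (j + n)) (by positivity) (hsp _).le
    have n7 : 0 ≤ (1 + 2 * Real.sin ε) ^ n := by positivity
    calc _ ≤ (Real.sin (xp (j + 1) - xm (j + 1)) *
        Real.sin (xp (j + 1 + n) - xm (j + 1 + n))) * (1 + 2 * Real.sin ε) ^ n :=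
          mul_le_mul_of_nonneg_right n6 n7
      _ = (1 + 2 * Real.sin ε) ^ n * Real.sin (xp (j + 1) - xm (j + 1)) *
          Real.sin (xp (j + 1 + n) - xm (j + 1 + n)) := by ring
      _ ≤ _ := i3
      _ ≤ _ := n5
  -- periodicity
  have hQ : ∀ n, Q B (j + q) n = Q B j n := by
    intro n
    induction n with
    | zero => rfl
    | succ n ih =>
      show B (j + q + n) * Q B (j + q) n = B (j + n) * Q B j n
      rw [ih, show j + q + n = (j + n) + q by ring, hB]
  obtain ⟨q', rfl⟩ := Nat.exists_eq_add_of_le hq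
  have := key (j + q') n
  rw [show j + q' + 1 = j + (1 + q') by ring, hQ] at this
  exact this

end Pool.Agent.TH382.QC
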