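import Pool.Agent.TH382.QC.Alg

/-!
# Lifts of the action of `SL(2, ℝ)` on directions
-/

set_option autoImplicit false

open Complex ComplexConjugate Filter Topology

namespace Pool.Agent.TH382.QC

/-- the unit vector of angle `x` -/
noncomputable def un (x : ℝ) : ℂ := exp (x * I)

theorem norm_un (x : ℝ) : ‖un x‖ = 1 := Complex.norm_exp_ofReal_mul_I x

theorem un_ne (x : ℝ) : un x ≠ 0 := Complex.exp_ne_zero _

theorem un_add (x y : ℝ) : un (x + y) = un x * un y := by
  unfold un
  rw [Complex.ofReal_add, add_mul, Complex.exp_add]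

theorem conj_un (x : ℝ) : conj (un x) = un (-x) := by
  unfold un
  rw [← Complex.exp_conj]
  congr 1
  rw [map_mul, Complex.conj_ofReal, Complex.conj_I]
  push_cast
  ring

theorem un_re (x : ℝ) : (un x).re = Real.cos x := Complex.exp_ofReal_mul_I_re x

theorem un_im (x : ℝ) : (un x).im = Real.sin x := Complex.exp_ofReal_mul_I_im x

theorem un_cont : Continuous un := by
  unfold un
  fun_prop

theorem ar_un (x y : ℝ) : ar (un x) (un y) = Real.sin (y - x) := by
  unfold ar
  rw [conj_un, ← un_add, un_im]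
  congr 1
  ring

theorem un_pi (x : ℝ) : un (x + Real.pi) = -un x := by
  rw [un_add]
  have : un Real.pi = -1 := Complex.exp_pi_mul_I
  rw [this]
  ring

/-- the small part -/
noncomputable def ww (M : SL2) (x : ℝ) : ℂ := be M / al M * un (-(2 * x))

/-- the lift of the action on directions -/
noncomputable def L (M : SL2) (x : ℝ) : ℝ := x + (al M).arg + (1 + ww M x).arg

theorem norm_ww (M : SL2) (x : ℝ) : ‖ww M x‖ < 1 := by
  unfold ww
  rw [norm_mul, norm_un, mul_one, norm_div, div_lt_one (norm_pos_iff.2 (al_ne M))]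
  exact be_lt M

theorem slit (M : SL2) (x : ℝ) : 1 + ww M x ∈ Complex.slitPlane := by
  left
  have h1 := (abs_le.1 (Complex.abs_re_le_norm (ww M x))).1
  have h2 := norm_ww M x
  rw [Complex.add_re, Complex.one_re]
  linarith

theorem ww_ne (M : SL2) (x : ℝ) : 1 + ww M x ≠ 0 := Complex.slitPlane_ne_zero (slit M x)

theorem act_un (M : SL2) (x : ℝ) : act M (un x) = un x * (al M * (1 + ww M x)) := by
  unfold act ww
  rw [conj_un]
  have h := al_ne M
  have e : un (-x) = un x * un (-(2 * x)) := by
    rw [← un_add]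
    congr 1
    ring
  rw [e]
  field_simp

theorem lift (M : SL2) (x : ℝ) : act M (un x) = ‖act M (un x)‖ * un (L M x) := by
  rw [act_un]
  have h1 : al M = ‖al M‖ * un (al M).arg := (Complex.norm_mul_exp_arg_mul_I _).symm
  have h2 : 1 + ww M x = ‖1 + ww M x‖ * un (1 + ww M x).arg :=
    (Complex.norm_mul_exp_arg_mul_I _).symm
  have h3 : un x * (al M * (1 + ww M x)) = (‖al M‖ * ‖1 + ww M x‖ : ℝ) * un (L M x) := by
    unfold L
    rw [un_add, un_add]
    conv_lhs => rw [h1, h2]
    push_cast
    ring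
  rw [h3, norm_mul, norm_un, mul_one, Complex.norm_real, Real.norm_eq_abs,
    abs_of_nonneg (by positivity)]

theorem L_cont (M : SL2) : Continuous (L M) := by
  have h1 : Continuous (fun x : ℝ => ww M x) := by
    unfold ww
    exact continuous_const.mul (un_cont.comp (by fun_prop))
  unfold L
  refine (continuous_id.add continuous_const).add ?_
  rw [continuous_iff_continuousAt]
  intro x
  exact (Complex.continuousAt_arg (slit M x)).comp
    (f := fun x : ℝ => 1 + ww M x) (continuous_const.add h1).continuousAt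

theorem L_pi (M : SL2) (x : ℝ) : L M (x + Real.pi) = L M x + Real.pi := by
  have : ww M (x + Real.pi) = ww M x := by
    unfold ww
    congr 1
    have e : -(2 * (x + Real.pi)) = -(2 * x) - Real.pi - Real.pi := by ring
    have h2 := un_pi (-(2 * x) - Real.pi - Real.pi)
    have h3 := un_pi (-(2 * x) - Real.pi)
    rw [sub_add_cancel] at h2 h3
    rw [e, h3, h2, neg_neg]
  unfold L
  rw [this]
  ring

theorem L_int (M : SL2) (x : ℝ) (k : ℤ) : L M (x + k * Real.pi) = L M x + k * Real.pi := by
  have hn : ∀ (n : ℕ) (x : ℝ), L M (x + n * Real.pi) = L M x + n * Real.pi := by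
    intro n
    induction n with
    | zero => intro x; simp
    | succ n ih =>
      intro x
      have e : x + ((n + 1 : ℕ) : ℝ) * Real.pi = x + n * Real.pi + Real.pi := by push_cast; ring
      rw [e, L_pi, ih]
      push_cast
      ring
  obtain ⟨n, rfl | rfl⟩ := k.eq_nat_or_neg
  · exact_mod_cast hn n x
  · have h := hn n (x + ((-(n : ℤ) : ℤ) : ℝ) * Real.pi)
    have e : x + ((-(n : ℤ) : ℤ) : ℝ) * Real.pi + n * Real.pi = x := by push_cast; ring
    rw [e] at h
    push_cast at h ⊢
    linarith

/-- equal directions -/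
theorem un_eq {x y r : ℝ} (hr : 0 < r) (h : un x = r * un y) : ∃ k : ℤ, x = y + 2 * k * Real.pi := by
  have h1 : r = 1 := by
    have := congrArg norm h
    rw [norm_un, norm_mul, norm_un, Complex.norm_real, mul_one, Real.norm_eq_abs,
      abs_of_pos hr] at this
    exact this.symm
  rw [h1, Complex.ofReal_one, one_mul] at h
  unfold un at h
  rw [Complex.exp_eq_exp_iff_exists_int] at h
  obtain ⟨k, hk⟩ := h
  refine ⟨k, ?_⟩
  have := congrArg Complex.im hk
  simp at this
  linarith

/-- equal lines -/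
theorem un_line {x y r : ℝ} (hr : r ≠ 0) (h : un x = r * un y) : ∃ k : ℤ, x = y + k * Real.pi := by
  rcases lt_or_gt_of_ne hr with h1 | h1
  · have h2 : un (x + Real.pi) = ((-r : ℝ) : ℂ) * un y := by
      rw [un_pi, h]
      push_cast
      ring
    obtain ⟨k, hk⟩ := un_eq (by linarith) h2
    exact ⟨2 * k - 1, by push_cast; linarith⟩
  · obtain ⟨k, hk⟩ := un_eq h1 h
    exact ⟨2 * k, by push_cast; linarith⟩

theorem L_inj (M : SL2) : Function.Injective (L M) := by
  intro x y h
  have h1 := lift M x
  have h2 := lift M y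
  rw [← h] at h2
  have hx : 0 < ‖act M (un x)‖ := norm_pos_iff.2 (act_ne M (un_ne x))
  have hy : 0 < ‖act M (un y)‖ := norm_pos_iff.2 (act_ne M (un_ne y))
  have hr0 : 0 < ‖act M (un x)‖ / ‖act M (un y)‖ := by positivity
  have h3 : act M (un x) = act M ((‖act M (un x)‖ / ‖act M (un y)‖ : ℝ) * un y) := by
    have e : (‖act M (un y)‖ : ℂ) ≠ 0 := by exact_mod_cast hy.ne'
    calc act M (un x) = ‖act M (un x)‖ * un (L M x) := h1
      _ = ((‖act M (un x)‖ / ‖act M (un y)‖ : ℝ) : ℂ) * (‖act M (un y)‖ * un (L M x)) := by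
        push_cast
        field_simp
      _ = ((‖act M (un x)‖ / ‖act M (un y)‖ : ℝ) : ℂ) * act M (un y) := by rw [← h2]
      _ = _ := (act_smul M _ _).symm
  obtain ⟨k, hk⟩ := un_eq hr0 (act_inj M h3)
  have h4 := L_int M y (2 * k)
  push_cast at h4
  rw [← hk, h] at h4
  have h5 : (k : ℝ) * Real.pi = 0 := by linarith
  rw [hk]
  linarith

theorem L_mono (M : SL2) : StrictMono (L M) := by
  rcases (L_cont M).strictMono_of_inj (L_inj M) with h | h
  · exact h
  · exfalso
    have h1 := h (show (0 : ℝ) < 0 + Real.pi by linarith [Real.pi_pos])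
    rw [L_pi] at h1
    linarith [Real.pi_pos]

end Pool.Agent.TH382.QC
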